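import Pool.Agent.Helper47.CA.Tp

/-! Assembly of the corners of case A: windows, boxes, the fields `r1` and `un` at one window. -/

set_option autoImplicit false

namespace Pool.Agent.Helper60.CA

open Finset Filter Topology MvPolynomial Pool.Agent.Helper3.LF Pool.Agent.Helper69.RK Pool.Agent.Helper31.EC
  Pool.Agent.Helper31.EC.Sp Pool.Agent.Helper89.LX Pool.Agent.Helper40.EL Pool.Agent.Helper98.FR
  Pool.Agent.Helper47.T4 Pool.Agent.Helper47.CA Pool.Agent.Helper40.NSK Pool.Agent.Helper99.CC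
  Pool.Agent.Helper11.TZ Pool.Agent.Helper60.CS Pool.Agent.Helper99.LF Pool.Agent.Helper99.EC
  Pool.Agent.Helper42.NS MeasureTheory

noncomputable section

variable {S : Sp}

/-- the windows -/
def qs (c e r u v : ℝ) : ℕ → ℝ
  | 0 => c
  | 1 => c + e
  | 2 => c + r
  | 3 => c + r + e
  | n + 4 => if u < TopologicalSpace.denseSeq ℝ n ∧ TopologicalSpace.denseSeq ℝ n < v then
      TopologicalSpace.denseSeq ℝ n else c

theorem qs_mem {c e r u v : ℝ} (he : 0 ≤ e) (hr : 0 ≤ r) (hu : u < c) (hv : c + r + e < v) (i : ℕ) :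
    u < qs c e r u v i ∧ qs c e r u v i < v := by
  match i with
  | 0 => exact ⟨hu, by show c < v; linarith⟩
  | 1 => exact ⟨by show u < c + e; linarith, by show c + e < v; linarith⟩
  | 2 => exact ⟨by show u < c + r; linarith, by show c + r < v; linarith⟩
  | 3 => exact ⟨by show u < c + r + e; linarith, by show c + r + e < v; linarith⟩
  | n + 4 =>
    show u < (if _ then _ else _) ∧ (if _ then _ else _) < v
    split_ifs with h
    · exact h
    · exact ⟨hu, by linarith⟩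

theorem qs_dn {c e r u v : ℝ} (hu : u < c) (hv : c + r + e < v) (a a' : ℝ) (h1 : c ≤ a) (h2 : a < a')
    (h3 : a' ≤ c + r + e) : ∃ j, a < qs c e r u v j ∧ qs c e r u v j < a' := by
  obtain ⟨n, hn⟩ := (TopologicalSpace.denseRange_denseSeq ℝ).exists_mem_open (isOpen_Ioo (a := a) (b := a'))
    ⟨(a + a') / 2, by constructor <;> linarith⟩
  have h4 : qs c e r u v (n + 4) = TopologicalSpace.denseSeq ℝ n :=
    if_pos ⟨by linarith [hn.1], by linarith [hn.2]⟩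
  exact ⟨n + 4, by rw [h4]; exact hn.1, by rw [h4]; exact hn.2⟩

/-- increments of a differentiable function on the right, from below -/
theorem incr_low {f : ℝ → ℝ} {w c : ℝ} (h : HasDerivAt f w c) (κ : ℝ) (hκ : 0 < κ) :
    ∃ d : ℝ, 0 < d ∧ ∀ r : ℝ, 0 < r → r < d → f c + (w - κ) * r ≤ f (c + r) := by
  rw [hasDerivAt_iff_isLittleO] at h
  have h1 := h.def hκ
  rw [Metric.eventually_nhds_iff] at h1
  obtain ⟨d, hd, h2⟩ := h1
  refine ⟨d, hd, fun r hr hrd => ?_⟩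
  have h3 := h2 (y := c + r) (by
    rw [Real.dist_eq, add_sub_cancel_left, abs_of_pos hr]
    exact hrd)
  rw [add_sub_cancel_left, smul_eq_mul, Real.norm_eq_abs, Real.norm_eq_abs, abs_of_pos hr] at h3
  have h4 := (abs_le.mp h3).1
  nlinarith

/-- the windows of a corner -/
structure Wn (q : ℕ → ℝ) (i0 i1 i2 i3 : ℕ) (c e w : ℝ) : Prop where
  h0 : q i0 = c
  h1 : q i1 = c + e
  h2 : q i2 = c + e / (w + 1)
  h3 : q i3 = c + e / (w + 1) + e

/-- the boxes of case A with top polynomials -/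
structure BTx (s : Sys S 3) (D : ℕ) (q : ℕ → ℝ) (σ : ℝ) where
  L : ℕ → Lab S
  b : Bx s q (fun i => q i + σ) q L
  Q : ∀ _ : ℕ, ∀ k, (b.M.sp.F k).Ω → Mon 4 D → ℝ
  top : ∀ i, Top b.sy (b.bd.V i) D (q i) (eta s D (q i)) (fun _ => Pi.single 2 1) (Q i)

/-- FIELD `r1` -/
def FR1 (s : Sys S 3) (D : ℕ) (σ c e w ε : ℝ) : Prop := ∀ (q : ℕ → ℝ) (B : BTx s D q σ) (i0 i1 i2 i3 : ℕ),
  Wn q i0 i1 i2 i3 c e w → B.b.bd.Dn i0 (q i3) → ∀ N : NDB B.b.ld i0 i2 D, N.e = e →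
  H (chgL (B.b.bd.V i2) 1 one_pos N.X2) - H (chgL (B.b.bd.V i3) 1 one_pos N.X2) ≤ ε * e

/-- FIELD `hD` -/
def FUn (s : Sys S 3) (D : ℕ) (σ c e ρ ε P : ℝ) : Prop := ∀ (q : ℕ → ℝ) (B : BTx s D q σ) (i0 : ℕ), q i0 = c →
  ∀ (he : 0 < e) (T : Sp) (pr : Pj T (B.b.M.sp.chg (B.b.bd.V i0) e he)) (E : ∀ k, (T.F k).Ω → Prop)
    (hE : 0 < ul (T.pr E)), P ≤ ul (T.pr E) → ∀ a b' : ℝ, 0 ≤ a → a ≤ b' → b' ≤ 1 →
    Pool.Agent.Helper31.EC.h (restL E hE (pr.map (chgL (B.b.bd.V i0) e he (TR.dg (TR.cor B.b.sy.P 2) (eta s D c + e * b')))))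
      (restL E hE (pr.map (chgL (B.b.bd.V i0) e he (TR.dg (TR.cor B.b.sy.P 2) (eta s D c + e * a) ⊔ oth B.b.sy 2)))) ≤
      (1 - ρ) * (b' - a) + ε

end

end Pool.Agent.Helper60.CA
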