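import Pool.Agent.Helper60.CA.Cf
import Pool.Agent.Helper98.FR.Dom
import Pool.Agent.Helper11.TZ.Def

/-! Functions of a label pass to dominating labels. -/

set_option autoImplicit false

namespace Pool.Agent.Helper60.CA

open Finset Filter Topology MvPolynomial Pool.Agent.Helper3.LF Pool.Agent.Helper69.RK Pool.Agent.Helper31.EC
  Pool.Agent.Helper31.EC.Sp Pool.Agent.Helper89.LX Pool.Agent.Helper40.EL Pool.Agent.Helper98.FR Pool.Agent.Helper11.TZ
open Pool.Agent.Helper42.NS (pb_comp)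
open Pool.Agent.Helper48.NS (dir)

noncomputable section

variable {S : Sp}

/-- FUNCTIONS OF A LABEL PASS TO DOMINATING LABELS: typical properties of the value and the point are kept -/
theorem dom_lift {l l' : Lab S} (hd : Dom l' l) {α : ℕ → Type} [∀ k, Nonempty (α k)] (f : ∀ k, (l k).T.Ω → α k) :
    ∃ f' : ∀ k, (l' k).T.Ω → α k, (Mes (S := l.sp) l.V f → Mes (S := l'.sp) l'.V f') ∧
      ∀ E : ∀ k, (S.F k).Ω → α k → Prop, Typ (S := l.sp) (fun k (ω : (l k).T.Ω) => E k ((l k).p.π ω) (f k ω)) →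
        Typ (S := l'.sp) (fun k (ω : (l' k).T.Ω) => E k ((l' k).p.π ω) (f' k ω)) := by
  classical
  set P : ℕ → Prop := fun k => ∃ r : FPj (l' k).T (l k).T,
    (l' k).V ≤ Setoid.comap r.π (l k).V ∧ ∀ ω, (l' k).T.μ ω ≠ 0 → (l' k).p.π ω = (l k).p.π (r.π ω) with hP
  have hd' : ∀ᶠ k in UF, P k := hd
  set f' : ∀ k, (l' k).T.Ω → α k := fun k ω =>
    if hk : P k then f k (hk.choose.π ω) else Classical.arbitrary _ with hf'
  have ev : ∀ k (hk : P k) ω, f' k ω = f k (hk.choose.π ω) := fun k hk ω => by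
    rw [hf']
    simp only
    rw [dif_pos hk]
  refine ⟨f', fun hm => ?_, fun E hE => ?_⟩
  · filter_upwards [hm, hd'] with k hm hk ω ω' a b c d
    have h1 := hm _ _ (hk.choose.supp ω a) (hk.choose.supp ω' b) (hk.choose_spec.1 c) ((hk.choose.hZ ω ω' a b).mp d)
    exact (ev k hk ω).trans (h1.trans (ev k hk ω').symm)
  · have ht' := (Typ_iff _).mp hE
    refine (Typ_iff _).mpr (ht'.congr' ?_)
    filter_upwards [hd'] with k hk
    have e1 := pb_comp hk.choose (fun ω => E k ((l k).p.π ω) (f k ω))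
    show FSp.pb (l k).T _ = FSp.pb (l' k).T _
    rw [← e1]
    apply Pool.Agent.Helper42.NS.pb_congr
    intro ω hω
    show E k ((l k).p.π (hk.choose.π ω)) (f k (hk.choose.π ω)) ↔ E k ((l' k).p.π ω) (f' k ω)
    rw [ev k hk ω, hk.choose_spec.2 ω hω]

variable {m : ℕ} {s : Sys S m}

/-- TOP POLYNOMIALS PASS TO DOMINATING LABELS -/
theorem top_dom {l l' : Lab S} (hd : Dom l' l) {D : ℕ} {c η : ℝ} {e : ℕ → Fin m → ℝ}
    {q : ∀ k, (l.sp.F k).Ω → Mon (m + 1) D → ℝ} (h : Top (s.pull l.pj) l.V D c η e q) :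
    ∃ q' : ∀ k, (l'.sp.F k).Ω → Mon (m + 1) D → ℝ, Top (s.pull l'.pj) l'.V D c η e q' := by
  obtain ⟨q', h1, h2⟩ := dom_lift (S := S) hd (α := fun _ => Mon (m + 1) D → ℝ) q
  refine ⟨q', ⟨?_, ?_, ?_⟩⟩
  · exact h1 h.meas
  · intro L hL
    obtain ⟨K, hK, h3⟩ := h.bd L ((sp_Sub l).mpr ((sp_Sub l').mp hL))
    refine ⟨K, (sp_Sub l').mpr ((sp_Sub l).mp hK), ?_⟩
    have h4 := h2 (fun k ω q => ∀ r, |r - s.t.v k ω 0| ≤ L k * S.dl c k → ∀ y : Fin (m + 1) → ℝ,
      (∀ i, |y i - pl (s.a.v k ω) (s.x.v k ω) r i| ≤ L k * S.dl η k) → |eval y (pol q)| ≤ K k) (by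
        refine h3.mono (Eventually.of_forall fun k ω _ h5 => ?_)
        intro r hr y hy
        refine h5 r ?_ y ?_
        · rw [sp_dl]; exact hr
        · intro i
          rw [sp_dl]; exact hy i)
    refine h4.mono (Eventually.of_forall fun k ω _ h5 => ?_)
    intro r hr y hy
    refine h5 r ?_ y ?_
    · rw [sp_dl] at hr; exact hr
    · intro i
      have := hy i
      rw [sp_dl] at this
      exact this
  · obtain ⟨K, hK, h3⟩ := h.der
    refine ⟨K, (sp_Sub l').mpr ((sp_Sub l).mp hK), ?_⟩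
    have h4 := h2 (fun k ω q => 1 ≤ K k * (S.dl η k * |eval (ptf s k ω) (dir (e k) (pol q))|)) (by
        refine h3.mono (Eventually.of_forall fun k ω _ h5 => ?_)
        rw [sp_dl] at h5
        exact h5)
    refine h4.mono (Eventually.of_forall fun k ω _ h5 => ?_)
    rw [sp_dl]
    exact h5

/-- a top polynomial is a polynomial over the base -/
theorem top_pf {Z : ∀ k, Setoid (S.F k).Ω} {D : ℕ} {c η : ℝ} {e : ℕ → Fin m → ℝ}
    {q : ∀ k, (S.F k).Ω → Mon (m + 1) D → ℝ} (h : Top s Z D c η e q) : PF s Z D c η q := ⟨h.meas, h.bd⟩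

end

end Pool.Agent.Helper60.CA
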