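import Pool.Agent.Helper60.CA.Nd
import Pool.Agent.Helper47.CA.Bx
import Pool.Agent.Helper98.FR.Ex

/-! The data of a corner of case A over two windows of a box. -/

set_option autoImplicit false

namespace Pool.Agent.Helper60.CA

open Finset Filter Topology MvPolynomial Pool.Agent.Helper3.LF Pool.Agent.Helper69.RK Pool.Agent.Helper31.EC
  Pool.Agent.Helper31.EC.Sp Pool.Agent.Helper89.LX Pool.Agent.Helper40.EL Pool.Agent.Helper98.FR
  Pool.Agent.Helper47.T4 Pool.Agent.Helper47.CA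

noncomputable section

variable {S : Sp} {s : Sys S 3} {q lam eta : ℕ → ℝ} {L : ℕ → Lab S} (b : Bx s q lam eta L)

/-- the partitions of a box are nested -/
theorem box_fin2 {i j : ℕ} (h : q i ≤ q j) : Fin2 (S := b.M.sp) (b.bd.V i) (b.bd.V j) :=
  fun k _ _ _ _ _ h1 => b.nest i j h k h1

/-- the centre of the window of a box -/
theorem box_cen (i : ℕ) : Cen (S := b.M.sp) b.sy (b.bd.V i) (q i) (b.bd.tc i).1 where
  meas := b.bd.lt i
  bd := ⟨fun _ => 1, b.M.sp.Sub_const zero_le_one, Typ_true.mono (Eventually.of_forall fun k ω _ _ => by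
    obtain ⟨h1, h2⟩ := b.sy.t.fl_sub (q i) (b.q0 i) k ω 0
    have e : b.sy.t.v k ω 0 - (b.bd.tc i).1 k ω = b.sy.t.v k ω 0 - (b.sy.t.fl (q i) (b.q0 i)).v k ω 0 := rfl
    rw [e, abs_of_nonneg h1, one_mul]
    exact h2.le)⟩

/-- DATA OF A CORNER OF CASE A: windows `i0` and `i2` of a box, top polynomial `Q` over the window `i0` -/
def ndq {D : ℕ} {η : ℝ} (i0 i2 : ℕ) (N : NN) (h : q i2 = q i0 + N.e * N.s)
    {Q : ∀ k, (b.M.sp.F k).Ω → Mon 4 D → ℝ} (hQ : PF (S := b.M.sp) b.sy (b.bd.V i0) D (q i0) η Q) :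
    NDB b.ld i0 i2 D where
  e := N.e
  he := N.he
  s := N.s
  σ := N.σ
  v := N.v
  hs := N.hs
  hσ := N.hσ
  hv := N.hv
  hvs := N.hvs
  h1 := N.h1
  h02 := h
  hZ := box_fin2 b (by rw [h]; have := mul_nonneg N.he.le N.hs; linarith)
  τ := ct (tco b.sy (q i0) (b.bd.tc i0).1)
  τ0 := ct (tc0 b.M.sp (q i0) (b.bd.tc i0).1 (b.bd.tc i2).1)
  hτt := by
    refine (ct_typ (box_cen b i0).tame).mono (Eventually.of_forall fun k ω _ h1 => ?_)
    have h2 : (ct (tco b.sy (q i0) (b.bd.tc i0).1)).1 k ω = tco b.sy (q i0) (b.bd.tc i0).1 k ω := h1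
    rw [h2]
    exact (mul_div_cancel₀ (b.sy.t.v k ω 0 - (b.bd.tc i0).1 k ω) (b.M.sp.dl_pos (q i0) k).ne').symm
  hτ0t := by
    have hle : q i0 ≤ q i2 := by rw [h]; have := mul_nonneg N.he.le N.hs; linarith
    refine (ct_typ (tc0_tame (box_cen b i0) (box_cen b i2) hle)).mono (Eventually.of_forall fun k ω _ h1 => ?_)
    have h2 : (ct (tc0 b.M.sp (q i0) (b.bd.tc i0).1 (b.bd.tc i2).1)).1 k ω =
      tc0 b.M.sp (q i0) (b.bd.tc i0).1 (b.bd.tc i2).1 k ω := h1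
    rw [h2]
    exact (mul_div_cancel₀ ((b.bd.tc i2).1 k ω - (b.bd.tc i0).1 k ω) (b.M.sp.dl_pos (q i0) k).ne').symm
  hτ0 := by
    have hle : q i0 ≤ q i2 := by rw [h]; have := mul_nonneg N.he.le N.hs; linarith
    filter_upwards [tc0_mes (box_cen b i0) (box_cen b i2) (box_fin2 b hle)] with k hk ω ω' a b' z
    exact ct_mes (hk ω ω' a b' z.1 z.2)
  g := fun j => ct (gco b.sy (q i0) (b.bd.tc i0).1 Q j)
  ζ := ct fun k ω => eval (ptf b.sy k ω) (pol (Q k ω))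
  hζ := hQ.rel (box_cen b i0)

end

end Pool.Agent.Helper60.CA
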