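import Pool.Agent.Helper60.CA.Dgb

/-! Digits of the top coordinate of a corner and of its coefficients along the line. -/

set_option autoImplicit false

namespace Pool.Agent.Helper60.CA

open Finset Filter Topology MvPolynomial Pool.Agent.Helper3.LF Pool.Agent.Helper69.RK Pool.Agent.Helper31.EC
  Pool.Agent.Helper31.EC.Sp Matrix Pool.Agent.Helper89.LX Pool.Agent.Helper60.CS

noncomputable section

variable {S : Sp} {m : ℕ} {s : Sys S m} {Z : ∀ k, Setoid (S.F k).Ω} {D : ℕ} {c η : ℝ} {τ : ∀ k, (S.F k).Ω → ℝ}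
  {q : ∀ k, (S.F k).Ω → Mon (m + 1) D → ℝ}

theorem sub_dl_le {K : ℕ → ℝ} (hK : S.Sub K) {δ : ℝ} (hδ : 0 < δ) : ∀ᶠ k in UF, K k * S.dl δ k ≤ 1 := by
  filter_upwards [hK.eventually_le hδ] with k hk
  have h1 : K k * S.dl δ k ≤ 2 ^ (δ * (S.F k).n) * S.dl δ k := mul_le_mul_of_nonneg_right (by linarith) (S.dl_pos δ k).le
  have h2 : (2 : ℝ) ^ (δ * (S.F k).n) * S.dl δ k = 1 := by
    unfold dl
    rw [← Real.rpow_add (by norm_num), add_neg_cancel, Real.rpow_zero]
  linarith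

theorem Typ_all {ι : Type} [Fintype ι] {E : ι → ∀ k, (S.F k).Ω → Prop} (h : ∀ i, Typ (S := S) (E i)) :
    Typ (S := S) (fun k ω => ∀ i, E i k ω) := by
  classical
  have h1 : ∀ s : Finset ι, Typ (S := S) (fun k ω => ∀ i ∈ s, E i k ω) := by
    intro s
    induction s using Finset.induction_on with
    | empty => exact Typ_true.mono (Eventually.of_forall fun k ω _ _ i hi => absurd hi (Finset.notMem_empty i))
    | insert a s ha ih =>
      refine ((h a).and ih).mono (Eventually.of_forall fun k ω _ h2 i hi => ?_)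
      rcases Finset.mem_insert.mp hi with rfl | hi
      · exact h2.1
      · exact h2.2 i hi
  exact (h1 Finset.univ).mono (Eventually.of_forall fun k ω _ h2 i => h2 i (Finset.mem_univ i))

/-- the coefficients along the line -/
theorem PF.gco_dg (h : PF s Z D c η q) (hτ : Cen s Z c τ) (hc : 0 ≤ c) (hη : η < 1) (j : ℕ) (e : ℝ) (he : 0 < e)
    {u : ℝ} (hu : η + e * u ≤ 1) : TR.dg (trc Z e he (ct (gco s c τ q j))) u ≤ chgL Z e he (s.xi 1) := by
  obtain ⟨K, hK, h1⟩ := h.ev hτ (fun _ => 1) (S.Sub_const zero_le_one)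
  obtain ⟨L, hL, h2⟩ := hτ.ctame hc
  have hL2 : S.Sub (fun k => 2 + L k) := (S.Sub_const (by norm_num : (0 : ℝ) ≤ 2)).add hL
  have hη' : 0 < 1 - η := by linarith
  have hDC : (0 : ℝ) ≤ Cl D * (D * Cl D) := mul_nonneg (Cl_nonneg D) (mul_nonneg (Nat.cast_nonneg _) (Cl_nonneg D))
  show _ ≤ chgL Z e he (s.a.dg 1 ⊔ s.x.dg 1)
  apply trc_dg_le2 Z e he _ u _ _ _ _ _ ((h1.and h2).and (ct_typ (h.gco_tame hτ j)))
    (fun k => Cl D * (D * Cl D) * (K k * (2 + L k))) ((S.Sub_const hDC).mul (hK.mul hL2))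
  filter_upwards [hτ.meas, h.meas, hL.1, sub_dl_le hL2 hη'] with k m1 m2 hL0 m4 ω ω' a b d d' z q' i j'
  have m5 : S.dl c k ≤ 1 := by
    have := S.dl_anti hc k
    rwa [S.dl_zero] at this
  have e1 := m1 ω ω' a b z q'
  have e2 := m2 ω ω' a b z q'
  show |TR.ev (ct (gco s c τ q j)) k ω - TR.ev (ct (gco s c τ q j)) k ω'| ≤ _
  rw [d.2, d'.2]
  unfold gco
  rw [← e1, ← e2, abs_sub_comm]
  have h0 : 0 < (2 + L k) * S.dl (1 - η) k := mul_pos (by linarith) (S.dl_pos _ k)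
  have hdl : (2 + L k) * S.dl (1 - η) k * S.dl η k = (2 + L k) * S.dl 1 k := by
    rw [mul_assoc, ← dl_add]
    congr 2
    ring
  have h3 := lc_near (q k ω) (pl (s.a.v k ω) (s.x.v k ω) (τ k ω)) (ldr s c k ω)
    (pl (s.a.v k ω') (s.x.v k ω') (τ k ω)) (ldr s c k ω') (M := K k) (r := S.dl η k) d.1.1.1 (S.dl_pos η k)
    (fun u hu y hy => d.1.1.2 u hu y (fun i => by rw [one_mul]; exact hy i)) h0 m4 (fun i' => by
      rw [hdl]
      induction i' using Fin.cases with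
      | zero =>
        show |τ k ω - τ k ω| + |S.dl c k - S.dl c k| ≤ _
        rw [sub_self, sub_self, abs_zero, add_zero]
        exact mul_nonneg (by linarith) (S.dl_pos 1 k).le
      | succ i' =>
        show |(s.a.v k ω' i' + τ k ω * s.x.v k ω' i') - (s.a.v k ω i' + τ k ω * s.x.v k ω i')| +
          |S.dl c k * s.x.v k ω' i' - S.dl c k * s.x.v k ω i'| ≤ _
        have e4 : (s.a.v k ω' i' + τ k ω * s.x.v k ω' i') - (s.a.v k ω i' + τ k ω * s.x.v k ω i') =
          (s.a.v k ω' i' - s.a.v k ω i') + τ k ω * (s.x.v k ω' i' - s.x.v k ω i') := by ring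
        have e5 : S.dl c k * s.x.v k ω' i' - S.dl c k * s.x.v k ω i' =
          S.dl c k * (s.x.v k ω' i' - s.x.v k ω i') := by ring
        have a1 : |s.a.v k ω' i' - s.a.v k ω i'| ≤ S.dl 1 k := by rw [abs_sub_comm]; exact i i'
        have a2 : |s.x.v k ω' i' - s.x.v k ω i'| ≤ S.dl 1 k := by rw [abs_sub_comm]; exact j' i'
        have a3 : |τ k ω * (s.x.v k ω' i' - s.x.v k ω i')| ≤ L k * S.dl 1 k := by
          rw [abs_mul]
          exact mul_le_mul d.1.2 a2 (abs_nonneg _) hL0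
        have a4 : |S.dl c k * (s.x.v k ω' i' - s.x.v k ω i')| ≤ 1 * S.dl 1 k := by
          rw [abs_mul, abs_of_pos (S.dl_pos c k)]
          exact mul_le_mul m5 a2 (abs_nonneg _) zero_le_one
        rw [e4, e5]
        have a5 := abs_add_le (s.a.v k ω' i' - s.a.v k ω i') (τ k ω * (s.x.v k ω' i' - s.x.v k ω i'))
        have e6 : (2 + L k) * S.dl 1 k = S.dl 1 k + L k * S.dl 1 k + 1 * S.dl 1 k := by ring
        rw [e6]
        linarith) j
  refine h3.trans ?_
  have h5 : S.dl (1 - η) k ≤ S.dl (e * u) k := S.dl_anti (by linarith) k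
  have h6 : 0 ≤ Cl D * (D * Cl D) * (K k * (2 + L k)) := mul_nonneg hDC (mul_nonneg d.1.1.1 (by linarith))
  calc Cl D * (D * (Cl D * K k) * ((2 + L k) * S.dl (1 - η) k))
      = Cl D * (D * Cl D) * (K k * (2 + L k)) * S.dl (1 - η) k := by ring
    _ ≤ _ := mul_le_mul_of_nonneg_left h5 h6

/-- the value at the point -/
theorem PF.pt_dg (h : PF s Z D c η q) (hη : η < 1) (e : ℝ) (he : 0 < e)
    {u : ℝ} (hu : η + e * u ≤ 1) :
    TR.dg (trc Z e he (ct fun k ω => eval (ptf s k ω) (pol (q k ω)))) u ≤ chgL Z e he (s.P.dg 1 ⊔ s.T) := by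
  obtain ⟨K, hK, h1⟩ := h.bd (fun _ => 1) (S.Sub_const zero_le_one)
  have hη' : 0 < 1 - η := by linarith
  have hDC : (0 : ℝ) ≤ D * Cl D := mul_nonneg (Nat.cast_nonneg _) (Cl_nonneg D)
  show _ ≤ chgL Z e he (s.P.dg 1 ⊔ s.t.dg 1)
  apply trc_dg_le2 Z e he _ u _ _ _ _ _ (h1.and (ct_typ h.pt_tame))
    (fun k => D * Cl D * K k) ((S.Sub_const hDC).mul hK)
  filter_upwards [h.meas, hK.1, sub_dl_le (S.Sub_const zero_le_one) hη'] with k m2 hK0 m4 ω ω' a b d d' z q' i j'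
  have e2 := m2 ω ω' a b z q'
  show |TR.ev (ct fun k ω => eval (ptf s k ω) (pol (q k ω))) k ω -
    TR.ev (ct fun k ω => eval (ptf s k ω) (pol (q k ω))) k ω'| ≤ _
  rw [d.2, d'.2, ← e2, abs_sub_comm]
  rw [one_mul] at m4
  have hdl : S.dl (1 - η) k * S.dl η k = S.dl 1 k := by
    rw [← dl_add]
    congr 1
    ring
  have h3 := lip_ball (q k ω) (ptf s k ω) (ptf s k ω') (M := K k) (r := S.dl η k) hK0 (S.dl_pos η k)
    (fun y hy => d.1 (s.t.v k ω 0) (by
      rw [sub_self, abs_zero, one_mul]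
      exact (S.dl_pos c k).le) y (fun i => by
        rw [one_mul]
        exact hy i)) (S.dl_pos (1 - η) k) m4 (fun i' => by
      rw [hdl, abs_sub_comm]
      induction i' using Fin.cases with
      | zero => exact j' 0
      | succ i' => exact i i')
  refine h3.trans ?_
  have h5 : S.dl (1 - η) k ≤ S.dl (e * u) k := S.dl_anti (by linarith) k
  have h6 : 0 ≤ D * Cl D * K k := mul_nonneg hDC hK0
  calc D * (Cl D * K k) * S.dl (1 - η) k = D * Cl D * K k * S.dl (1 - η) k := by ring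
    _ ≤ _ := mul_le_mul_of_nonneg_left h5 h6

/-- the relation of the top coordinate -/
theorem PF.rel (h : PF s Z D c η q) (hτ : Cen s Z c τ) :
    TR.Te (ct fun k ω => eval (ptf s k ω) (pol (q k ω)))
      (∑ i : Fin (D + 1), ct (gco s c τ q i) * ct (tco s c τ) ^ (i : ℕ)) := by
  have h1 : Typ (S := S) (fun k ω => ∀ i : Fin (D + 1), TR.ev (ct (gco s c τ q i)) k ω = gco s c τ q i k ω) :=
    Typ_all fun i => ct_typ (h.gco_tame hτ i)
  refine ⟨_, ((ct_typ h.pt_tame).and (ct_typ hτ.tame)).and h1, Eventually.of_forall fun k ω _ h2 => ?_⟩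
  rw [h2.1.1, gco_pt s c τ q k ω, ← TR.evh_apply, map_sum]
  apply Finset.sum_congr rfl
  intro i _
  rw [map_mul, map_pow, TR.evh_apply, TR.evh_apply, h2.2 i, h2.1.2]
  rfl

end

end Pool.Agent.Helper60.CA
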