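import Pool.Agent.Helper60.CA.Cra
import Pool.Agent.Helper83.NSA.Two
import Pool.Agent.Helper82.R1A.Fr
import Pool.Agent.Helper59.CA.Sel
import Pool.Agent.Helper11.UA.Lev

/-! **ROW CORNER OF CASE A**: corners at almost every window. -/

set_option autoImplicit false

namespace Pool.Agent.Helper60.CA

open Finset Filter Topology MvPolynomial Pool.Agent.Helper3.LF Pool.Agent.Helper69.RK Pool.Agent.Helper31.EC
  Pool.Agent.Helper31.EC.Sp Pool.Agent.Helper89.LX Pool.Agent.Helper40.EL Pool.Agent.Helper98.FR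
  Pool.Agent.Helper40.NSK Pool.Agent.Helper83.NSA Pool.Agent.Helper42.NS Pool.Agent.Helper3.SG Pool.Agent.Helper3.PR
  Pool.Agent.Helper59.CA MeasureTheory

noncomputable section

/-- **ROW CORNER OF CASE A** for `z = P_2` -/
theorem corac (hst : Pool.Agent.Helper59.EV.ST 1 2) {D : ℕ} (hD : 1 ≤ D) : CoraC D := by
  obtain ⟨G, Φ, M, hM, H⟩ := ((ex4_bxA hD hst).and (ex4_robH D)).and (ex4_robSl D)
  refine ⟨G, Φ, M, hM, fun g S s hs hz hl hf hlip hry => ?_⟩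
  obtain ⟨⟨h1, hH⟩, hS⟩ := H g S s hs
  obtain ⟨u, σ, A⟩ := h1 hz hl hf hlip hry
  have hlt : ∀ c, u < c → c < c0 s D → c + σ < eta s D c := fun c a b => A.lt' a b
  have hadm : ∀ a b, u < a → a ≤ b → b < c0 s D →
      Pool.Agent.Helper97.T1.Adm s (fun c => c + σ) (fun c => c) a b := fun a b ha hab hb =>
    Pool.Agent.Helper82.R1A.adm_flat (A.u0.trans ha.le) A.σ0
      (fun c hc => ((hlt c (ha.trans_le hc.1) (hc.2.trans_lt hb)).trans (A.eta1 c (ha.trans_le hc.1) (hc.2.trans_lt hb))).le)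
      (hb.trans A.c1).le (fun c hc => A.hR c (ha.trans_le hc.1) (hc.2.trans_lt hb))
      (fun c hc => A.full c (ha.trans_le hc.1) (hc.2.trans_lt hb))
  obtain ⟨E, hE, hE0, hEs⟩ : ∃ E : ℕ → ℝ, (∀ n, 0 < E n) ∧ Tendsto E atTop (𝓝 0) ∧ Summable E :=
    ⟨fun n => (1 / 2) ^ n, fun n => by positivity, tendsto_pow_atTop_nhds_zero_of_lt_one (by norm_num) (by norm_num),
      summable_geometric_two⟩
  refine ⟨u, A.u0, A.uc, corac_at hD hs.g0 hs.rich A.u0 A.σ0 hlt A.eta1 (fun q hq => ?_) E hE hE0 ?_ ?_⟩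
  · obtain ⟨B⟩ := A.bt q hq
    exact ⟨⟨fun i => lb (B.x i), B.b, B.Q, B.top⟩⟩
  · refine Eventually.of_forall fun c hc w hw hdw hy => ?_
    obtain ⟨y', hy1, hy2⟩ := hy
    obtain ⟨ρ, hρ, hρ1, hU⟩ := Pool.Agent.Helper11.UA.fun_of hs hH (hS 2) hD hst hz A.c1 A.u0 A.σ0 A.lam A.eta1 A.lt A.ry
      hc.1 hc.2 hw hdw hy1 hy2
    refine ⟨ρ, hρ, hρ1, fun ε P hε hP => ?_⟩
    obtain ⟨e0, he0, h⟩ := hU ε hε
    filter_upwards [hE0.eventually_lt_const he0] with n hn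
    exact h (E n) (hE n) hn.le P
  · filter_upwards [Pool.Agent.Helper82.R1A.fr1_unif A.u0 hadm hE hEs] with c hc hcc w hw _ ε hε
    filter_upwards [hc hcc ε hε] with n hn
    exact hn D w (by linarith)

end

end Pool.Agent.Helper60.CA
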