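import Pool.Agent.Helper60.CA.Cf

/-! Affine forms which are functions of the base: base coordinates of a corner. -/

set_option autoImplicit false

namespace Pool.Agent.Helper60.CA

open Finset Filter Topology MvPolynomial Pool.Agent.Helper3.LF Pool.Agent.Helper69.RK Pool.Agent.Helper31.EC
  Pool.Agent.Helper31.EC.Sp Matrix Pool.Agent.Helper89.LX

noncomputable section

section aff

variable {N : ℕ}

/-- the value of an affine form -/
def aff (c : Mon N 1 → ℝ) (y : Fin N → ℝ) : ℝ := eval y (pol c)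

/-- affine forms are affine along lines -/
theorem aff_line (c : Mon N 1 → ℝ) (x v : Fin N → ℝ) (u : ℝ) :
    aff c (fun i => x i + v i * u) = aff c x + u * (aff c (fun i => x i + v i) - aff c x) := by
  have h1 := lc_eval c x v u
  have h2 := lc_eval c x v 0
  have h3 := lc_eval c x v 1
  rw [Fin.sum_univ_two] at h1 h2 h3
  have e2 : (fun i => x i + v i * 0) = x := by funext i; ring
  have e3 : (fun i => x i + v i * 1) = fun i => x i + v i := by funext i; ring
  rw [e2] at h2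
  rw [e3] at h3
  unfold aff
  rw [h1, h2, h3]
  simp only [Fin.val_zero, Fin.val_one, pow_zero, pow_one]
  ring

/-- affine forms are additive -/
theorem aff_add (c : Mon N 1 → ℝ) (x y : Fin N → ℝ) :
    aff c (fun i => x i + y i) + aff c 0 = aff c x + aff c y := by
  have h1 := aff_line c x (fun i => y i - x i) (1 / 2)
  have h2 := aff_line c 0 (fun i => x i + y i) (1 / 2)
  have e1 : (fun i => x i + (y i - x i) * (1 / 2)) = fun i => (0 : Fin N → ℝ) i + (x i + y i) * (1 / 2) := by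
    funext i
    show x i + (y i - x i) * (1 / 2) = 0 + (x i + y i) * (1 / 2)
    ring
  have e2 : (fun i => x i + (y i - x i)) = y := by funext i; ring
  have e3 : (fun i => (0 : Fin N → ℝ) i + (x i + y i)) = fun i => x i + y i := by
    funext i
    show 0 + (x i + y i) = _
    ring
  rw [e1, h2, e2, e3] at h1
  linarith

/-- the linear part -/
def lin (c : Mon N 1 → ℝ) (v : Fin N → ℝ) : ℝ := aff c v - aff c 0

theorem lin_smul (c : Mon N 1 → ℝ) (v : Fin N → ℝ) (u : ℝ) : lin c (fun i => v i * u) = u * lin c v := by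
  have h1 := aff_line c 0 v u
  have e1 : (fun i => (0 : Fin N → ℝ) i + v i * u) = fun i => v i * u := by
    funext i
    show 0 + v i * u = _
    ring
  have e2 : (fun i => (0 : Fin N → ℝ) i + v i) = v := by
    funext i
    show 0 + v i = _
    ring
  rw [e1, e2] at h1
  unfold lin
  rw [h1]
  ring

theorem aff_add' (c : Mon N 1 → ℝ) (x v : Fin N → ℝ) (u : ℝ) :
    aff c (fun i => x i + v i * u) = aff c x + u * lin c v := by
  have h1 := aff_add c x (fun i => v i * u)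
  have h2 := lin_smul c v u
  unfold lin at h2 ⊢
  linarith

end aff

variable {S : Sp} {m : ℕ}

/-- the slope of the form along the line -/
def bsl (s : Sys S m) (p : ∀ k, (S.F k).Ω → Mon (m + 1) 1 → ℝ) (k : ℕ) (ω : (S.F k).Ω) : ℝ :=
  lin (p k ω) (Fin.cons 1 (s.x.v k ω))

/-- the form on the line at time `τ`, relative to `r`, in the unit `2 ^ (-c n)` -/
def bin (s : Sys S m) (c : ℝ) (τ : ∀ k, (S.F k).Ω → ℝ) (p : ∀ k, (S.F k).Ω → Mon (m + 1) 1 → ℝ)
    (r : ∀ k, (S.F k).Ω → ℝ) (k : ℕ) (ω : (S.F k).Ω) : ℝ :=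
  (aff (p k ω) (pl (s.a.v k ω) (s.x.v k ω) (τ k ω)) - r k ω) / S.dl c k

/-- the form at the point -/
def byc (s : Sys S m) (c : ℝ) (p : ∀ k, (S.F k).Ω → Mon (m + 1) 1 → ℝ)
    (r : ∀ k, (S.F k).Ω → ℝ) (k : ℕ) (ω : (S.F k).Ω) : ℝ :=
  (aff (p k ω) (ptf s k ω) - r k ω) / S.dl c k

theorem aff_pl (c : Mon (m + 1) 1 → ℝ) (a x : Fin m → ℝ) (t t' : ℝ) :
    aff c (pl a x t') = aff c (pl a x t) + (t' - t) * lin c (Fin.cons 1 x) := by
  rw [← aff_add']
  congr 1
  funext i
  induction i using Fin.cases with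
  | zero =>
    show t' = t + 1 * (t' - t)
    ring
  | succ i =>
    show a i + t' * x i = (a i + t * x i) + x i * (t' - t)
    ring

/-- base coordinates along the line -/
theorem byc_eq (s : Sys S m) (c : ℝ) (τ : ∀ k, (S.F k).Ω → ℝ) (p : ∀ k, (S.F k).Ω → Mon (m + 1) 1 → ℝ)
    (r : ∀ k, (S.F k).Ω → ℝ) (k : ℕ) (ω : (S.F k).Ω) :
    byc s c p r k ω = bin s c τ p r k ω + (s.t.v k ω 0 - τ k ω) / S.dl c k * bsl s p k ω := by
  unfold byc bin bsl ptf
  rw [aff_pl (p k ω) _ _ (τ k ω) (s.t.v k ω 0)]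
  have h1 := (S.dl_pos c k).ne'
  field_simp
  ring

/-- change of the window -/
theorem bin_chg (s : Sys S m) (c c' : ℝ) (τ τ' : ∀ k, (S.F k).Ω → ℝ) (p : ∀ k, (S.F k).Ω → Mon (m + 1) 1 → ℝ)
    (r r' : ∀ k, (S.F k).Ω → ℝ) (k : ℕ) (ω : (S.F k).Ω) :
    bin s c τ p r k ω = (r' k ω - r k ω) / S.dl c k + S.dl (c' - c) k * bin s c' τ' p r' k ω -
      (τ' k ω - τ k ω) / S.dl c k * bsl s p k ω := by
  unfold bin bsl
  rw [aff_pl (p k ω) _ _ (τ' k ω) (τ k ω)]
  have h1 := (S.dl_pos c k).ne'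
  have h2 := (S.dl_pos c' k).ne'
  have h3 : S.dl (c' - c) k = S.dl c' k / S.dl c k := by
    rw [eq_div_iff h1, ← dl_add]
    congr 1
    ring
  rw [h3]
  field_simp
  ring

/-- AFFINE FORM OVER THE BASE `Z` with coefficients of size `2 ^ (σ n)`, window `c`, centre `r` -/
structure BF (s : Sys S m) (Z : ∀ k, Setoid (S.F k).Ω) (c σ : ℝ) (p : ∀ k, (S.F k).Ω → Mon (m + 1) 1 → ℝ)
    (r : ∀ k, (S.F k).Ω → ℝ) : Prop where
  mp : Mes Z p
  mr : Mes Z r
  /-- the slope is tame -/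
  sl : Tame (bsl s p)
  /-- the centre -/
  ce : Tame (byc s c p r)
  /-- size of the coefficients -/
  lip : ∃ K : ℕ → ℝ, S.Sub K ∧ Typ (S := S) (fun k ω => ∀ v : Fin (m + 1) → ℝ, ∀ δ : ℝ, (∀ i, |v i| ≤ δ) →
    S.dl σ k * |lin (p k ω) v| ≤ K k * δ)

end

end Pool.Agent.Helper60.CA
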