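import Pool.Agent.Helper60.CA.Pf
import Pool.Agent.Helper89.LX.Frm

/-! Polynomials which are functions of the base: their coefficients along the line as tame functions in the space over
the base, digits. -/

set_option autoImplicit false

namespace Pool.Agent.Helper60.CA

open Finset Filter Topology MvPolynomial Pool.Agent.Helper3.LF Pool.Agent.Helper69.RK Pool.Agent.Helper31.EC
  Pool.Agent.Helper31.EC.Sp Matrix Pool.Agent.Helper89.LX

noncomputable section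

variable {S : Sp} {m : ℕ}

/-- a polynomial which is a function of the base `Z`, bounded along the window of level `c` of the line, on balls of
radius `2 ^ (-η n)` -/
structure PF (s : Sys S m) (Z : ∀ k, Setoid (S.F k).Ω) (D : ℕ) (c η : ℝ)
    (q : ∀ k, (S.F k).Ω → Mon (m + 1) D → ℝ) : Prop where
  meas : Mes Z q
  bd : ∀ L : ℕ → ℝ, S.Sub L → ∃ K : ℕ → ℝ, S.Sub K ∧ Typ (S := S) (fun k ω =>
    ∀ r, |r - s.t.v k ω 0| ≤ L k * S.dl c k → ∀ y : Fin (m + 1) → ℝ,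
      (∀ i, |y i - pl (s.a.v k ω) (s.x.v k ω) r i| ≤ L k * S.dl η k) → |eval y (pol (q k ω))| ≤ K k)

/-- a centre of the window of level `c` -/
structure Cen (s : Sys S m) (Z : ∀ k, Setoid (S.F k).Ω) (c : ℝ) (τ : ∀ k, (S.F k).Ω → ℝ) : Prop where
  meas : Mes Z τ
  bd : ∃ L : ℕ → ℝ, S.Sub L ∧ Typ (S := S) (fun k ω => |s.t.v k ω 0 - τ k ω| ≤ L k * S.dl c k)

/-- the direction of the line in the unit `2 ^ (-c n)` of time -/
def ldr (s : Sys S m) (c : ℝ) (k : ℕ) (ω : (S.F k).Ω) : Fin (m + 1) → ℝ :=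
  Fin.cons (S.dl c k) fun i => S.dl c k * s.x.v k ω i

/-- the coefficients of the polynomial along the line -/
def gco {D : ℕ} (s : Sys S m) (c : ℝ) (τ : ∀ k, (S.F k).Ω → ℝ) (q : ∀ k, (S.F k).Ω → Mon (m + 1) D → ℝ) (j : ℕ)
    (k : ℕ) (ω : (S.F k).Ω) : ℝ :=
  lc (q k ω) (pl (s.a.v k ω) (s.x.v k ω) (τ k ω)) (ldr s c k ω) j

theorem pl_ldr (s : Sys S m) (c : ℝ) (k : ℕ) (ω : (S.F k).Ω) (τ u : ℝ) :
    (fun i => pl (s.a.v k ω) (s.x.v k ω) τ i + ldr s c k ω i * u) =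
      pl (s.a.v k ω) (s.x.v k ω) (τ + S.dl c k * u) := by
  funext i
  induction i using Fin.cases with
  | zero => rfl
  | succ i =>
    show (s.a.v k ω i + τ * s.x.v k ω i) + (S.dl c k * s.x.v k ω i) * u =
      s.a.v k ω i + (τ + S.dl c k * u) * s.x.v k ω i
    ring

theorem gco_eval {D : ℕ} (s : Sys S m) (c : ℝ) (τ : ∀ k, (S.F k).Ω → ℝ) (q : ∀ k, (S.F k).Ω → Mon (m + 1) D → ℝ)
    (k : ℕ) (ω : (S.F k).Ω) (u : ℝ) :
    eval (pl (s.a.v k ω) (s.x.v k ω) (τ k ω + S.dl c k * u)) (pol (q k ω)) =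
      ∑ j : Fin (D + 1), gco s c τ q j k ω * u ^ (j : ℕ) := by
  rw [← pl_ldr]
  exact lc_eval _ _ _ u

/-- the value at the point -/
theorem gco_pt {D : ℕ} (s : Sys S m) (c : ℝ) (τ : ∀ k, (S.F k).Ω → ℝ) (q : ∀ k, (S.F k).Ω → Mon (m + 1) D → ℝ)
    (k : ℕ) (ω : (S.F k).Ω) :
    eval (ptf s k ω) (pol (q k ω)) =
      ∑ j : Fin (D + 1), gco s c τ q j k ω * ((s.t.v k ω 0 - τ k ω) / S.dl c k) ^ (j : ℕ) := by
  rw [← gco_eval]
  unfold ptf
  congr 2
  rw [mul_div_cancel₀ _ (S.dl_pos c k).ne', add_sub_cancel]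

section bounds

variable {s : Sys S m} {Z : ∀ k, Setoid (S.F k).Ω} {D : ℕ} {c η : ℝ} {q : ∀ k, (S.F k).Ω → Mon (m + 1) D → ℝ}
  {τ : ∀ k, (S.F k).Ω → ℝ}

/-- the typical event of a polynomial and a centre, with radius `L` -/
theorem PF.ev (h : PF s Z D c η q) (hτ : Cen s Z c τ) (L : ℕ → ℝ) (hL : S.Sub L) :
    ∃ K : ℕ → ℝ, S.Sub K ∧ Typ (S := S) (fun k ω => 0 ≤ K k ∧ ∀ u : ℝ, |u| ≤ L k → ∀ y : Fin (m + 1) → ℝ,
      (∀ i, |y i - (pl (s.a.v k ω) (s.x.v k ω) (τ k ω) i + ldr s c k ω i * u)| ≤ L k * S.dl η k) →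
        |eval y (pol (q k ω))| ≤ K k) := by
  obtain ⟨L0, hL0, h0⟩ := hτ.bd
  obtain ⟨K, hK, h1⟩ := h.bd (fun k => L0 k + L k) (hL0.add hL)
  refine ⟨K, hK, (h0.and h1).mono ?_⟩
  filter_upwards [hK.1, hL0.1, hL.1] with k hk1 hk2 hk3 ω _ h2
  obtain ⟨h2, h3⟩ := h2
  refine ⟨hk1, fun u hu y hy => ?_⟩
  apply h3 (τ k ω + S.dl c k * u)
  · have e1 : τ k ω + S.dl c k * u - s.t.v k ω 0 = -(s.t.v k ω 0 - τ k ω) + S.dl c k * u := by ring
    rw [e1]
    refine (abs_add_le _ _).trans ?_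
    rw [abs_neg, abs_mul, abs_of_pos (S.dl_pos c k)]
    have h4 := mul_le_mul_of_nonneg_left hu (S.dl_pos c k).le
    have e2 : (L0 k + L k) * S.dl c k = L0 k * S.dl c k + S.dl c k * L k := by ring
    rw [e2]
    exact add_le_add h2 h4
  · intro i
    have h5 := hy i
    rw [congrFun (pl_ldr s c k ω (τ k ω) u) i] at h5
    refine h5.trans ?_
    have := mul_nonneg hk2 (S.dl_pos η k).le
    nlinarith

/-- the coefficients are tame -/
theorem PF.gco_tame (h : PF s Z D c η q) (hτ : Cen s Z c τ) (j : ℕ) : Tame (gco s c τ q j) := by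
  obtain ⟨K, hK, h1⟩ := h.ev hτ (fun _ => 1) (S.Sub_const zero_le_one)
  refine ⟨fun k => Cl D * K k, (S.Sub_const (Cl_nonneg D)).mul hK, h1.mono (Eventually.of_forall fun k ω _ h2 => ?_)⟩
  obtain ⟨h2, h3⟩ := h2
  apply lc_bd _ _ _ h2
  intro u hu
  apply h3 u hu
  intro i
  rw [sub_self, abs_zero, one_mul]
  exact (S.dl_pos η k).le

/-- the value at the point is tame -/
theorem PF.pt_tame (h : PF s Z D c η q) : Tame fun k ω => eval (ptf s k ω) (pol (q k ω)) := by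
  obtain ⟨K, hK, h1⟩ := h.bd (fun _ => 1) (S.Sub_const zero_le_one)
  refine ⟨K, hK, h1.mono (Eventually.of_forall fun k ω _ h2 => ?_)⟩
  apply h2 (s.t.v k ω 0)
  · rw [sub_self, abs_zero, one_mul]
    exact (S.dl_pos c k).le
  · intro i
    show |ptf s k ω i - ptf s k ω i| ≤ _
    rw [sub_self, abs_zero, one_mul]
    exact (S.dl_pos η k).le

/-- the time is tame -/
theorem Cen.t_tame (hτ : Cen s Z c τ) : Tame fun k ω => (s.t.v k ω 0 - τ k ω) / S.dl c k := by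
  obtain ⟨L0, hL0, h0⟩ := hτ.bd
  refine ⟨L0, hL0, h0.mono (Eventually.of_forall fun k ω _ h1 => ?_)⟩
  rw [abs_div, abs_of_pos (S.dl_pos c k), div_le_iff₀ (S.dl_pos c k)]
  exact h1

end bounds

end

end Pool.Agent.Helper60.CA
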