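import Pool.Agent.Helper60.CA.NdB
import Pool.Agent.Helper60.CA.Dm
import Pool.Agent.Helper47.CA.Tp

/-! The corner of case A over two windows of a box: digits of the line and of the point. -/

set_option autoImplicit false

namespace Pool.Agent.Helper60.CA

open Finset Filter Topology MvPolynomial Pool.Agent.Helper3.LF Pool.Agent.Helper69.RK Pool.Agent.Helper31.EC
  Pool.Agent.Helper31.EC.Sp Pool.Agent.Helper89.LX Pool.Agent.Helper40.EL Pool.Agent.Helper98.FR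
  Pool.Agent.Helper47.T4 Pool.Agent.Helper47.CA Pool.Agent.Helper40.NSK Pool.Agent.Helper99.CC
  Pool.Agent.Helper11.TZ Pool.Agent.Helper60.CS Pool.Agent.Helper99.LF Pool.Agent.Helper99.EC

noncomputable section

variable {S : Sp} {s : Sys S 3} {q lam eta : ℕ → ℝ} {L : ℕ → Lab S} (b : Bx s q lam eta L)

theorem box_xi : (famPj b.M).map (s.xi 1) = b.sy.xi 1 := by
  show (famPj b.M).map (s.a.dg 1 ⊔ s.x.dg 1) = _
  rw [(famPj b.M).map_sup, (famPj b.M).map_dg, (famPj b.M).map_dg]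
  rfl

theorem box_lA (c : ℝ) : (famPj b.M).map (lA s c) = b.sy.xi 1 ⊔ b.sy.t.dg c := by
  unfold lA
  rw [(famPj b.M).map_sup, box_xi, (famPj b.M).map_dg]
  rfl

theorem box_lB : (famPj b.M).map (lB s) = b.sy.P.dg 1 ⊔ b.sy.T := by
  unfold lB
  rw [(famPj b.M).map_sup, (famPj b.M).map_dg]
  show _ ⊔ (famPj b.M).map (s.t.dg 1) = _
  rw [(famPj b.M).map_dg]
  rfl

section crn

variable {D : ℕ} {η : ℝ} {i0 i2 : ℕ} (N : NN) (h : q i2 = q i0 + N.e * N.s)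
  {Q : ∀ k, (b.M.sp.F k).Ω → Mon 4 D → ℝ} (hQ : PF (S := b.M.sp) b.sy (b.bd.V i0) D (q i0) η Q)

/-- the coefficients along the line are functions of the line -/
theorem ndq_g {i : ℕ} (hi : q i0 ≤ q i) (hη : η < 1) {u : ℝ} (hu : η + u ≤ 1) (e : ℝ) (he : 0 < e) :
    chgL (b.bd.V i) e he (gd (ndq b i0 i2 N h hQ).g u) ≤ chgL (b.bd.V i) e he (b.sy.xi 1) := by
  have h1 : gd (fun j => trc (b.bd.V i) e he ((ndq b i0 i2 N h hQ).g j)) (u / e) =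
      chgL (b.bd.V i) e he (gd (ndq b i0 i2 N h hQ).g u) := by
    rw [gd_trc]
    congr 2
    field_simp
  rw [← h1, gd_le]
  intro j
  exact (hQ.fin2 (box_fin2 b hi)).gco_dg ((box_cen b i0).fin2 (box_fin2 b hi)) (b.q0 i0) hη j e he (by
    rw [mul_div_cancel₀ _ he.ne']; exact hu)

/-- field `g0` -/
theorem ndq_g0 (hη : η < 1) (h1 : η + N.e * (N.σ + N.v) ≤ 1) :
    chgL (b.bd.V i0) 1 one_pos (gd (ndq b i0 i2 N h hQ).g (N.e * (N.σ + N.v))) ≤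
      chgL (b.bd.V i0) 1 one_pos b.ld.L := by
  have h2 : b.ld.L = b.sy.xi 1 := box_xi b
  rw [h2]
  exact ndq_g b N h hQ le_rfl hη h1 1 one_pos

/-- the line of the corner -/
theorem ndq_iA (hη : η < 1) (h1 : η + N.e * (N.σ + N.v) ≤ 1) (h2 : q i2 + N.e ≤ 1) (h3 : lam i2 + N.e ≤ 1) (c : ℝ) :
    (fc (ndq b i0 i2 N h hQ).nd.cd.tr).iA ≤ chgL (b.bd.V i2) N.e N.he ((famPj b.M).map (lA s c)) := by
  refine (CD.iA_le _).trans ?_
  have hq : q i0 ≤ q i2 := by rw [h]; have := mul_nonneg N.he.le N.hs; linarith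
  have e1 : gd (ndq b i0 i2 N h hQ).nd.cd.g ((ndq b i0 i2 N h hQ).nd.cd.σ + (ndq b i0 i2 N h hQ).nd.cd.v) =
      chgL (b.bd.V i2) N.e N.he (gd (ndq b i0 i2 N h hQ).g (N.e * (N.σ + N.v))) :=
    (ndq b i0 i2 N h hQ).nd.g_dg (N.σ + N.v)
  rw [e1, (ndq b i0 i2 N h hQ).rL]
  have h4 : chgL (b.bd.V i2) N.e N.he (b.sy.xi 1) ≤ chgL (b.bd.V i2) N.e N.he ((famPj b.M).map (lA s c)) := by
    rw [box_lA]
    exact chgL_mono _ _ _ le_sup_left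
  refine _root_.sup_le ?_ ?_
  · refine le_trans ?_ h4
    have h5 := NDB.line_le (B := b.bd) i2 h2 h3 b.ld
    have h6 : b.ld.L = b.sy.xi 1 := box_xi b
    rw [h6] at h5
    exact (unit_le _ _).mpr h5
  · exact (ndq_g b N h hQ hq hη h1 N.e N.he).trans h4

/-- the base point of the corner -/
theorem ndq_iQ (h2 : q i2 + N.e ≤ 1) (h3 : lam i2 + N.e ≤ 1) :
    (fc (ndq b i0 i2 N h hQ).nd.cd.tr).iQ ≤ chgL (b.bd.V i2) N.e N.he (Mall b.bd) := by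
  have e1 : (fc (ndq b i0 i2 N h hQ).nd.cd.tr).iQ =
      chgL (b.bd.V i2) N.e N.he ((ndq b i0 i2 N h hQ).Y2 ⊔ Pool.Agent.Helper47.CA.T2 (ndq b i0 i2 N h hQ).nd) := by
    have eT : QS.dg (fc (ndq b i0 i2 N h hQ).nd.cd.tr).t 1 =
        chgL (b.bd.V i2) N.e N.he (Pool.Agent.Helper47.CA.T2 (ndq b i0 i2 N h hQ).nd) := by
      show QS.dg (QS.mk (ndq b i0 i2 N h hQ).nd.cd.t) 1 = _
      rw [QS.dg_mk _ le_rfl]
      exact (ndq b i0 i2 N h hQ).nd.t_dg 1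
    unfold FC.iQ
    rw [(ndq b i0 i2 N h hQ).rY, eT, chgL_sup]
    rfl
  rw [e1, (ndq b i0 i2 N h hQ).pt_eq N.he]
  exact (unit_le _ _).mpr (ptI_le_all b.bd i2 one_pos h2 h3)

/-- the point of the corner -/
theorem ndq_iB (hη : η < 1) (h1 : η + N.e * (N.σ + N.v) ≤ 1) (h2 : q i2 + N.e ≤ 1) (h3 : lam i2 + N.e ≤ 1) :
    (fc (ndq b i0 i2 N h hQ).nd.cd.tr).iB ≤ chgL (b.bd.V i2) N.e N.he ((famPj b.M).map (lB s)) := by
  have hq : q i0 ≤ q i2 := by rw [h]; have := mul_nonneg N.he.le N.hs; linarith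
  have ez : QS.dg (fc (ndq b i0 i2 N h hQ).nd.cd.tr).z 1 =
      chgL (b.bd.V i2) N.e N.he (TR.dg (ndq b i0 i2 N h hQ).ζ (N.e * (N.σ + N.v))) := by
    have h4 := (ndq b i0 i2 N h hQ).nd.z_dg (u := 1) le_rfl
    have e1 : N.e * (1 - (1 - N.σ - N.v)) = N.e * (N.σ + N.v) := by ring
    have h5 : QS.dg (fc (ndq b i0 i2 N h hQ).nd.cd.tr).z 1 =
      chgL (b.bd.V i2) N.e N.he (TR.dg (ndq b i0 i2 N h hQ).ζ (N.e * (1 - (1 - N.σ - N.v)))) := h4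
    rw [h5, e1]
  unfold FC.iB
  rw [ez]
  refine _root_.sup_le ((ndq_iQ b N h hQ h2 h3).trans (chgL_mono _ _ _ ?_)) ?_
  · rw [box_lB, ← oth_eq]
    unfold oth
    refine _root_.sup_le le_sup_right (Finset.sup_le fun j _ => ?_)
    exact (TR.cor_dg_le b.sy.P j 1).trans le_sup_left
  · rw [← trc_dg, box_lB]
    exact (hQ.fin2 (box_fin2 b hq)).pt_dg hη N.e N.he h1

theorem ct_te {U : Sp} {f : ∀ k, (U.F k).Ω → ℝ} {K : ℕ → ℝ} (hK : U.Sub K)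
    (hKt : Typ (S := U) (fun k ω => |f k ω| ≤ K k)) : TR.Te (ct f) (cut K hK f) := by
  refine ⟨_, (ct_typ ⟨K, hK, hKt⟩).and hKt, Eventually.of_forall fun k ω _ h => ?_⟩
  rw [h.1, cut_ev h.2]

end crn


/-- a window `(e, w)`: the numbers of the corner -/
def NW (e w : ℝ) (he : 0 < e) (hw : 0 < w) : NN where
  e := e
  he := he
  s := 1 / (w + 1)
  σ := w / (w + 1)
  v := 1 / (w + 1)
  hs := by positivity
  hσ := by positivity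
  hv := by positivity
  hvs := le_rfl
  h1 := by
    have h : w / (w + 1) + 1 / (w + 1) = 1 := by field_simp
    exact h.le

/-- THE CORNER OF CASE A -/
theorem ndq_cor (D : ℕ) (ρ : ℝ) (hρ : 0 < ρ) (hρ1 : ρ ≤ 1) (εt : ℝ) (hεt : 0 < εt) : ∃ P : ℝ, 0 < P ∧ P ≤ 1 ∧
    ∀ (S : Sp) (s : Sys S 3) (q lam eta : ℕ → ℝ) (L : ℕ → Lab S) (b : Bx s q lam eta L) (i0 i1 i2 i3 : ℕ) (N : NN)
      (h : q i2 = q i0 + N.e * N.s) (η η' : ℝ) (Q Q' : ∀ k, (b.M.sp.F k).Ω → Mon 4 D → ℝ)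
      (hT : Top b.sy (b.bd.V i0) D (q i0) η (fun _ => Pi.single 2 1) Q)
      (_ : Top b.sy (b.bd.V i2) D (q i2) η' (fun _ => Pi.single 2 1) Q') (ε : ℝ),
      0 ≤ η → η < 1 → η' < 1 → η ≤ η' → η + N.e * (N.σ + N.v) ≤ 1 → q i1 = q i0 + N.e → q i3 = q i2 + N.e →
      b.bd.Dn i0 (q i3) → 0 ≤ ε → 3 * ε ≤ P ^ 2 → η + N.e * N.σ ≤ η' + ε * N.e →
      lam i1 ≤ lam i0 + N.e + ε * N.e → lam i3 ≤ lam i2 + N.e + ε * N.e →
      H (chgL (b.bd.V i2) 1 one_pos (ndq b i0 i2 N h (top_pf hT)).X2) -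
        H (chgL (b.bd.V i3) 1 one_pos (ndq b i0 i2 N h (top_pf hT)).X2) ≤ ε * N.e →
      (∀ (T : Sp) (pr : Pj T (b.M.sp.chg (b.bd.V i0) N.e N.he)) (E : ∀ k, (T.F k).Ω → Prop)
        (hE : 0 < ul (T.pr E)), P ≤ ul (T.pr E) → ∀ a b' : ℝ, 0 ≤ a → a ≤ b' → b' ≤ N.σ + N.v →
        Pool.Agent.Helper31.EC.h (restL E hE (pr.map (chgL (b.bd.V i0) N.e N.he (TR.dg (TR.cor b.sy.P 2) (η + N.e * b')))))
          (restL E hE (pr.map (chgL (b.bd.V i0) N.e N.he (TR.dg (TR.cor b.sy.P 2) (η + N.e * a) ⊔ oth b.sy 2)))) ≤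
          (1 - ρ) * (b' - a) + ε) →
      (∃ w : QS.CQ (ndq b i0 i2 N h (top_pf hT)).nd.U (fc (ndq b i0 i2 N h (top_pf hT)).nd.cd.tr).fB 2,
        ∀ e : Fin (2 + 1) → Fin (2 + 1), Function.Injective e →
        Big (Matrix.of fun i j => (w.p (e i)).qs ((fc (ndq b i0 i2 N h (top_pf hT)).nd.cd.tr).v j)).det P) →
      CorH (fc (ndq b i0 i2 N h (top_pf hT)).nd.cd.tr) 2 ρ εt := by
  obtain ⟨P, hP, hP1, hB⟩ := Bk.corner D ρ hρ hρ1 εt hεt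
  refine ⟨P, hP, hP1, ?_⟩
  intro S s q lam eta L b i0 i1 i2 i3 N h η η' Q Q' hT hT' ε hη0 hη1 hη' hηη h1 h01 h23 hd hε hεP h2 sp1 sp3 r1 hD st
  obtain ⟨K, hK, hKt⟩ := (top_pf hT).pt_tame
  exact hB _ 2 2 _ _ _ _ _ _ _ _ _ _ ε hε hεP
    (bk_top b (ndq b i0 i2 N h (top_pf hT)) hT hT' hη0 hη1 hη' hηη h1 K hK hKt (ct_te hK hKt) hd h01 h23 le_rfl hε h2
      (ndq_g0 b N h (top_pf hT) hη1 h1) r1 sp1 sp3 hD) st

end

end Pool.Agent.Helper60.CA
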