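import Pool.Agent.Helper60.CA.Cla
import Pool.Agent.Helper60.CA.Cod
import Pool.Agent.Helper35.CL.CorA
import Pool.Agent.Helper24.SA.Box

/-! Assembly of the corners of case A: the local corner and almost every window. -/

set_option autoImplicit false

namespace Pool.Agent.Helper60.CA

open Finset Filter Topology MvPolynomial Pool.Agent.Helper3.LF Pool.Agent.Helper69.RK Pool.Agent.Helper31.EC
  Pool.Agent.Helper31.EC.Sp Pool.Agent.Helper89.LX Pool.Agent.Helper40.EL Pool.Agent.Helper98.FR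
  Pool.Agent.Helper47.T4 Pool.Agent.Helper47.CA Pool.Agent.Helper40.NSK Pool.Agent.Helper99.CC
  Pool.Agent.Helper11.TZ Pool.Agent.Helper60.CS Pool.Agent.Helper99.LF Pool.Agent.Helper99.EC
  Pool.Agent.Helper83.NSA Pool.Agent.Helper42.NS MeasureTheory

noncomputable section

variable {S : Sp}

theorem rich_mono {m : ℕ} {s : Sys S m} {g g' : ℝ} (h : Pool.Agent.Helper80.MX.Rich s g) (hg : g' ≤ g) :
    Pool.Agent.Helper80.MX.Rich s g' := fun T p E hE r h0 h1 =>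
  (mul_le_mul_of_nonneg_right hg h0).trans (h T p E hE r h0 h1)

/-- THE LOCAL CORNER -/
theorem cora_loc (D : ℕ) (ρ : ℝ) (hρ : 0 < ρ) (hρ1 : ρ ≤ 1) (εt : ℝ) (hεt : 0 < εt) (g : ℝ) (hg : 0 < g) (hg1 : g ≤ 1) :
    ∃ P ε : ℝ, 0 < P ∧ P ≤ 1 ∧ 0 < ε ∧
    ∀ (S : Sp) (s : Sys S 3) (σ' c e w : ℝ) (q : ℕ → ℝ) (B : BTx s D q σ') (i0 i1 i2 i3 : ℕ),
      Pool.Agent.Helper80.MX.Rich s g → Wn q i0 i1 i2 i3 c e w → B.b.bd.Dn i0 (q i3) → 0 < e → 0 < w → 0 ≤ σ' →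
      0 ≤ eta s D c → eta s D c + e ≤ 1 → eta s D (c + e / (w + 1)) < 1 → eta s D c ≤ eta s D (c + e / (w + 1)) →
      eta s D c + e * (w / (w + 1)) ≤ eta s D (c + e / (w + 1)) + ε * e →
      c + e / (w + 1) + σ' + e ≤ 1 → e ≤ eta s D (c + e / (w + 1)) - (c + e / (w + 1)) →
      e ≤ 1 - eta s D (c + e / (w + 1)) → FR1 s D σ' c e w ε → FUn s D σ' c e ρ ε P → ∀ β, c + e / (w + 1) + σ' ≤ β →
      Nonempty (CorA s 2 D c (c + e / (w + 1)) (eta s D c) β e ρ εt) := by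
  obtain ⟨P, hP, hP1, hB⟩ := Bk.corner D ρ hρ hρ1 εt hεt
  obtain ⟨ε, hε⟩ : ∃ ε, ε = min (P ^ 2 / 3) (g * P ^ 2 / 80) := ⟨_, rfl⟩
  have hε0 : 0 < ε := by rw [hε]; exact lt_min (by positivity) (by positivity)
  have hε1 : 3 * ε ≤ P ^ 2 := by
    have : ε ≤ P ^ 2 / 3 := by rw [hε]; exact min_le_left _ _
    linarith
  have hε2 : 80 * ε ≤ g * P ^ 2 := by
    have : ε ≤ g * P ^ 2 / 80 := by rw [hε]; exact min_le_right _ _
    linarith
  refine ⟨P, ε, hP, hP1, hε0, ?_⟩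
  intro S s σ' c e w q B i0 i1 i2 i3 hr hW hd he hw hσ' hη0 hη1 hη' hηη h2 hl he1 he2 hR hU β hβ
  obtain ⟨w0, w1, w2, w3⟩ := hW
  have hw1 : 0 < w + 1 := by linarith
  have hN1 : (NW e w he hw).σ + (NW e w he hw).v = 1 := by
    show w / (w + 1) + 1 / (w + 1) = 1
    field_simp
  have h02 : q i2 = q i0 + (NW e w he hw).e * (NW e w he hw).s := by
    show q i2 = q i0 + e * (1 / (w + 1))
    rw [w0, w2]
    ring
  have hT := B.top i0
  have hT' := B.top i2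
  have r0 : eta s D (q i0) = eta s D c := by rw [w0]
  have r2 : eta s D (q i2) = eta s D (c + e / (w + 1)) := by rw [w2]
  obtain ⟨K, hK, hKt⟩ := (top_pf hT).pt_tame
  have hes : e * ((NW e w he hw).σ + (NW e w he hw).v) = e := by rw [hN1, mul_one]
  have h1 : eta s D (q i0) + (ndq B.b i0 i2 (NW e w he hw) h02 (top_pf hT)).e *
      ((ndq B.b i0 i2 (NW e w he hw) h02 (top_pf hT)).σ + (ndq B.b i0 i2 (NW e w he hw) h02 (top_pf hT)).v) ≤ 1 := by
    show eta s D (q i0) + e * ((NW e w he hw).σ + (NW e w he hw).v) ≤ 1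
    rw [hes, r0]
    exact hη1
  have hT0 : eta s D (q i0) < 1 := by rw [r0]; linarith
  have hq2 : q i2 + e ≤ 1 := by rw [w2]; linarith
  have hl2 : q i2 + σ' + e ≤ 1 := by rw [w2]; exact hl
  have hBk := bk_top B.b (ndq B.b i0 i2 (NW e w he hw) h02 (top_pf hT)) (i1 := i1) (i3 := i3) (ρ := ρ) (ε := ε) (P := P)
    hT hT' (by rw [r0]; exact hη0) hT0
    (by rw [r2]; exact hη') (by rw [r0, r2]; exact hηη) h1 K hK hKt (ct_te hK hKt) hd
    (by show q i1 = q i0 + e; rw [w0, w1]) (by show q i3 = q i2 + e; rw [w2, w3]) le_rfl hε0.le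
    (by
      show eta s D (q i0) + e * (w / (w + 1)) ≤ eta s D (q i2) + ε * e
      rw [r0, r2]
      exact h2)
    (ndq_g0 B.b (NW e w he hw) h02 (top_pf hT) hT0 h1)
    (hR q B i0 i1 i2 i3 ⟨w0, w1, w2, w3⟩ hd _ rfl)
    (by
      show q i1 + σ' ≤ q i0 + σ' + e + ε * e
      rw [w0, w1]
      have := mul_pos hε0 he
      linarith)
    (by
      show q i3 + σ' ≤ q i2 + σ' + e + ε * e
      rw [w2, w3]
      have := mul_pos hε0 he
      linarith)
    (by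
      intro T pr E hE hPE a b' ha hab hb'
      have hb1 : b' ≤ 1 := by
        have h5 : b' ≤ (NW e w he hw).σ + (NW e w he hw).v := hb'
        rwa [hN1] at h5
      have h6 := hU q B i0 w0 he T pr E hE hPE a b' ha hab hb1
      rw [← r0] at h6
      exact h6)
  have hst := Pool.Agent.Helper24.SA.st_top B.b (ndq B.b i0 i2 (NW e w he hw) h02 (top_pf hT)) hT hT' h1 K hK hKt
    (ct_te hK hKt) hq2 hl2 hBk hg hg1 hr
    (by
      show e ≤ eta s D (q i2) - q i2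
      rw [r2, w2]
      exact he1)
    (by
      show e ≤ 1 - eta s D (q i2)
      rw [r2]
      exact he2) hP hP1 hε2 2
  have hcor := hB _ 2 2 _ _ _ _ _ _ _ _ _ _ ε hε0.le hε1 hBk hst
  have h9 := Pool.Agent.Helper35.CL.corA_of B.b i0 i2 (NW e w he hw) h02 hN1 hT hT0
    (by show eta s D (q i0) + e ≤ 1; rw [r0]; exact hη1) hq2 hl2 (β := β) (by
      show q i2 + σ' ≤ β
      rw [w2]
      exact hβ) hcor
  rw [r0, w0, w2] at h9
  exact h9

/-- THE CORNERS OF CASE A AT ALMOST EVERY WINDOW, one system -/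
theorem corac_at {D : ℕ} (hD : 1 ≤ D) {s : Sys S 3} {u σ g : ℝ} (hg : 0 < g) (hr : Pool.Agent.Helper80.MX.Rich s g)
    (hu0 : 0 ≤ u) (hσ : 0 ≤ σ) (hlt : ∀ c, u < c → c < c0 s D → c + σ < eta s D c)
    (h1 : ∀ c, u < c → c < c0 s D → eta s D c < 1)
    (hbox : ∀ q : ℕ → ℝ, (∀ i, u < q i ∧ q i < c0 s D) → Nonempty (BTx s D q σ))
    (E : ℕ → ℝ) (hE : ∀ n, 0 < E n) (hE0 : Tendsto E atTop (𝓝 0))
    (hun : ∀ᵐ c : ℝ, c ∈ Set.Ioo u (c0 s D) → ∀ w, 1 ≤ w → HasDerivAt (eta s D) w c →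
      (∃ y', y' ≤ 3 - g / 2 ∧ HasDerivAt (s.F 0) y' (eta s D c)) →
      ∃ ρ, 0 < ρ ∧ ρ ≤ 1 ∧ ∀ ε P, 0 < ε → 0 < P → ∀ᶠ n in atTop, FUn s D σ c (E n) ρ ε P)
    (hr1 : ∀ᵐ c : ℝ, c ∈ Set.Ioo u (c0 s D) → ∀ w, 1 ≤ w → HasDerivAt (eta s D) w c → ∀ ε, 0 < ε →
      ∀ᶠ n in atTop, FR1 s D σ c (E n) w ε) :
    ∀ᵐ c : ℝ, c ∈ Set.Ioo u (c0 s D) → ∀ w, 1 ≤ w → HasDerivAt (eta s D) w c →
      (∃ y', y' ≤ 3 - g / 2 ∧ HasDerivAt (s.F 0) y' (eta s D c)) →
      ∃ ρ b : ℝ, 0 < ρ ∧ 0 ≤ b ∧ b < eta s D c ∧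
        ∀ ε e0 : ℝ, 0 < ε → 0 < e0 → ∃ e, e < e0 ∧ Nonempty (CorA s 2 D c (c + e / (w + 1)) (eta s D c) b e ρ ε) := by
  filter_upwards [hun, hr1] with c a1 a2 hc w hw hdw hy
  obtain ⟨ρ, hρ, hρ1, hU⟩ := a1 hc w hw hdw hy
  have hR := a2 hc w hw hdw
  obtain ⟨hcu, hcc⟩ := hc
  have hlc := hlt c hcu hcc
  have h1c := h1 c hcu hcc
  have hη0 : 0 ≤ eta s D c := by linarith
  refine ⟨ρ, (c + σ + eta s D c) / 2, hρ, by linarith, by linarith, ?_⟩
  intro εt e0 hεt he0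
  obtain ⟨P, ε, hP, hP1, hε, H⟩ := cora_loc D ρ hρ hρ1 εt hεt (min g 1) (lt_min hg one_pos) (min_le_right _ _)
  obtain ⟨d1, hd1, hinc⟩ := incr_low hdw ε hε
  have h1m := h1 ((c + c0 s D) / 2) (by linarith) (by linarith)
  obtain ⟨δ, hδ⟩ : ∃ δ : ℝ, δ = min (min e0 d1) (min (min ((c0 s D - c) / 2) ((1 - eta s D c) / 2))
    (min (1 - eta s D ((c + c0 s D) / 2)) ((eta s D c - c - σ) / 2))) := ⟨_, rfl⟩
  have hδ0 : 0 < δ := by
    rw [hδ]
    exact lt_min (lt_min he0 hd1) (lt_min (lt_min (by linarith) (by linarith)) (lt_min (by linarith) (by linarith)))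
  obtain ⟨n, hn1, hn2, hn3⟩ := ((hE0.eventually_lt_const hδ0).and ((hU ε P hε hP).and (hR ε hε))).exists
  obtain ⟨e, he⟩ : ∃ e, e = E n := ⟨_, rfl⟩
  have hep : 0 < e := by rw [he]; exact hE n
  rw [← he] at hn1 hn2 hn3
  have b1 : e < e0 := hn1.trans_le (by rw [hδ]; exact (min_le_left _ _).trans (min_le_left _ _))
  have b2 : e < d1 := hn1.trans_le (by rw [hδ]; exact (min_le_left _ _).trans (min_le_right _ _))
  have b3 : e < (c0 s D - c) / 2 := hn1.trans_le (by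
    rw [hδ]; exact (min_le_right _ _).trans ((min_le_left _ _).trans (min_le_left _ _)))
  have b4 : e < (1 - eta s D c) / 2 := hn1.trans_le (by
    rw [hδ]; exact (min_le_right _ _).trans ((min_le_left _ _).trans (min_le_right _ _)))
  have b5 : e < 1 - eta s D ((c + c0 s D) / 2) := hn1.trans_le (by
    rw [hδ]; exact (min_le_right _ _).trans ((min_le_right _ _).trans (min_le_left _ _)))
  have b6 : e < (eta s D c - c - σ) / 2 := hn1.trans_le (by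
    rw [hδ]; exact (min_le_right _ _).trans ((min_le_right _ _).trans (min_le_right _ _)))
  refine ⟨e, b1, ?_⟩
  have hw1 : 0 < w + 1 := by linarith
  obtain ⟨r, hr'⟩ : ∃ r : ℝ, r = e / (w + 1) := ⟨_, rfl⟩
  have hr0 : 0 < r := by rw [hr']; positivity
  have hrw : r * (w + 1) = e := by rw [hr']; field_simp
  have hre : r ≤ e / 2 := by nlinarith
  have hm1 : eta s D c ≤ eta s D (c + r) := eta_mono hD (by linarith)
  have hm2 : eta s D (c + r) ≤ eta s D ((c + c0 s D) / 2) := eta_mono hD (by linarith)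
  have hin := hinc r hr0 (by linarith)
  obtain ⟨B⟩ := hbox (qs c e r u (c0 s D)) (fun i => qs_mem hep.le hr0.le hcu (by linarith) i)
  have hwr : e * (w / (w + 1)) = w * r := by rw [hr']; ring
  exact H S s σ c e w (qs c e r u (c0 s D)) B 0 1 2 3 (rich_mono hr (min_le_left _ _))
    ⟨rfl, rfl, by show c + r = _; rw [hr'], by show c + r + e = _; rw [hr']⟩
    (fun a a' h2 h3 h4 => qs_dn (e := e) (r := r) hcu (by linarith) a a' h2 h3 h4) hep (by linarith) hσ hη0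
    (by linarith) (by rw [← hr']; linarith) (by rw [← hr']; exact hm1)
    (by
      rw [hwr, ← hr']
      nlinarith)
    (by rw [← hr']; linarith) (by rw [← hr']; linarith) (by rw [← hr']; linarith) hn3 hn2 _ (by rw [← hr']; linarith)

end

end Pool.Agent.Helper60.CA
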