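import Pool.Agent.Helper60.CA.Dgt

/-! Digits of the base coordinates of a corner. -/

set_option autoImplicit false

namespace Pool.Agent.Helper60.CA

open Finset Filter Topology MvPolynomial Pool.Agent.Helper3.LF Pool.Agent.Helper69.RK Pool.Agent.Helper31.EC
  Pool.Agent.Helper31.EC.Sp Matrix Pool.Agent.Helper89.LX Pool.Agent.Helper60.CS

noncomputable section

theorem aff_sub {N : ℕ} (c : Mon N 1 → ℝ) (x y : Fin N → ℝ) : aff c x - aff c y = lin c (fun i => x i - y i) := by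
  have h1 := aff_add c y (fun i => x i - y i)
  have e1 : (fun i => y i + (x i - y i)) = x := by funext i; ring
  rw [e1] at h1
  unfold lin
  linarith

theorem lin_sub {N : ℕ} (c : Mon N 1 → ℝ) (x y : Fin N → ℝ) : lin c x - lin c y = lin c (fun i => x i - y i) := by
  rw [← aff_sub]
  unfold lin
  ring

variable {S : Sp} {m : ℕ} {s : Sys S m} {Z : ∀ k, Setoid (S.F k).Ω} {c σ : ℝ} {τ : ∀ k, (S.F k).Ω → ℝ}
  {p : ∀ k, (S.F k).Ω → Mon (m + 1) 1 → ℝ} {r : ∀ k, (S.F k).Ω → ℝ}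

/-- comparison of digits over the base: two vector variables -/
theorem trc_dg_le2 {q1 q2 : ℕ} (Z : ∀ k, Setoid (S.F k).Ω) (e : ℝ) (he : 0 < e) (f : TR S) (u : ℝ) (y : S.VV q1)
    (z : S.VV q2) (t1 t2 : ℝ) (E : ∀ k, (S.F k).Ω → Prop) (hE : Typ (S := S) E) (K : ℕ → ℝ) (hK : S.Sub K)
    (hh : ∀ᶠ k in UF, ∀ ω ω', (S.F k).μ ω ≠ 0 → (S.F k).μ ω' ≠ 0 → E k ω → E k ω' → Z k ω ω' → (S.F k).Z ω ω' →
      (∀ i, |y.v k ω i - y.v k ω' i| ≤ S.dl t1 k) → (∀ i, |z.v k ω i - z.v k ω' i| ≤ S.dl t2 k) →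
      |f.1 k ω - f.1 k ω'| ≤ K k * S.dl (e * u) k) :
    TR.dg (trc Z e he f) u ≤ chgL Z e he (y.dg t1 ⊔ z.dg t2) := by
  have e1 : chgL Z e he (y.dg t1 ⊔ z.dg t2) = (y.chg Z e he).dg (t1 / e) ⊔ (z.chg Z e he).dg (t2 / e) := by
    rw [chgL_sup, VV.chg_dg, VV.chg_dg]
    congr 3 <;> field_simp
  rw [e1]
  apply VV.dg_le_dg2 _ _ _ _ _ _ _ (typ_chg Z e he hE) K (chg_sub Z e he hK)
  filter_upwards [hh] with k hk ω ω' a b c d q i j _
  have q' : (Z k ⊓ (S.F k).Z) ω ω' := q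
  have h1 : ∀ t : ℝ, (S.chg Z e he).dl (t / e) k = S.dl t k := by
    intro t
    rw [chg_dl]
    congr 1
    field_simp
  rw [h1] at i j
  have h2 := hk ω ω' a b c d q'.1 q'.2 i j
  rw [chg_dl]
  exact h2

/-- the intercept -/
theorem BF.bin_dg (h : BF s Z c σ p r) (hτ : Cen s Z c τ) (hc : 0 ≤ c) (ht : Tame (bin s c τ p r)) (e : ℝ) (he : 0 < e)
    {u : ℝ} (hu : c + σ + e * u ≤ 1) : TR.dg (trc Z e he (ct (bin s c τ p r))) u ≤ chgL Z e he (s.xi 1) := by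
  obtain ⟨K, hK, h1⟩ := h.lip
  obtain ⟨L, hL, h2⟩ := hτ.ctame hc
  show _ ≤ chgL Z e he (s.a.dg 1 ⊔ s.x.dg 1)
  apply trc_dg_le2 Z e he _ u _ _ _ _ (fun k ω => ((∀ v : Fin (m + 1) → ℝ, ∀ δ : ℝ, (∀ i, |v i| ≤ δ) →
    S.dl σ k * |lin (p k ω) v| ≤ K k * δ) ∧ |τ k ω| ≤ L k) ∧ TR.ev (ct (bin s c τ p r)) k ω = bin s c τ p r k ω)
    ((h1.and h2).and (ct_typ ht)) (fun k => K k * (1 + L k)) (hK.mul ((S.Sub_const zero_le_one).add hL))
  filter_upwards [hτ.meas, h.mp, h.mr, hK.1, hL.1] with k m1 m2 m3 hK0 hL0 ω ω' a b d d' z q i j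
  have e1 := m1 ω ω' a b z q
  have e2 := m2 ω ω' a b z q
  have e3 := m3 ω ω' a b z q
  show |TR.ev (ct (bin s c τ p r)) k ω - TR.ev (ct (bin s c τ p r)) k ω'| ≤ _
  rw [d.2, d'.2]
  unfold bin
  rw [← e1, ← e2, ← e3, ← sub_div, sub_sub_sub_cancel_right, aff_sub, abs_div, abs_of_pos (S.dl_pos c k),
    div_le_iff₀ (S.dl_pos c k)]
  have h3 := d.1.1 (fun i => pl (s.a.v k ω) (s.x.v k ω) (τ k ω) i - pl (s.a.v k ω') (s.x.v k ω') (τ k ω) i)
    ((1 + L k) * S.dl 1 k) (fun i' => by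
      have h0 : 0 ≤ (1 + L k) * S.dl 1 k := mul_nonneg (by linarith) (S.dl_pos 1 k).le
      induction i' using Fin.cases with
      | zero =>
        show |τ k ω - τ k ω| ≤ _
        rw [sub_self, abs_zero]
        exact h0
      | succ i' =>
        show |(s.a.v k ω i' + τ k ω * s.x.v k ω i') - (s.a.v k ω' i' + τ k ω * s.x.v k ω' i')| ≤ _
        have e4 : (s.a.v k ω i' + τ k ω * s.x.v k ω i') - (s.a.v k ω' i' + τ k ω * s.x.v k ω' i') =
          (s.a.v k ω i' - s.a.v k ω' i') + τ k ω * (s.x.v k ω i' - s.x.v k ω' i') := by ring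
        rw [e4]
        refine (abs_add_le _ _).trans ?_
        rw [abs_mul, add_mul, one_mul]
        exact add_le_add (i i') (mul_le_mul d.1.2 (j i') (abs_nonneg _) hL0))
  have h4 : |lin (p k ω) fun i => pl (s.a.v k ω) (s.x.v k ω) (τ k ω) i - pl (s.a.v k ω') (s.x.v k ω') (τ k ω) i| ≤
      K k * ((1 + L k) * S.dl 1 k) / S.dl σ k := by
    rw [le_div_iff₀ (S.dl_pos σ k), mul_comm]
    exact h3
  refine h4.trans ?_
  rw [div_le_iff₀ (S.dl_pos σ k)]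
  have h5 : S.dl 1 k ≤ S.dl (e * u) k * S.dl c k * S.dl σ k := by
    rw [← dl_add, ← dl_add]
    exact S.dl_anti (by linarith) k
  have h6 : 0 ≤ K k * (1 + L k) := mul_nonneg hK0 (by linarith)
  calc K k * ((1 + L k) * S.dl 1 k) = K k * (1 + L k) * S.dl 1 k := by ring
    _ ≤ K k * (1 + L k) * (S.dl (e * u) k * S.dl c k * S.dl σ k) := mul_le_mul_of_nonneg_left h5 h6
    _ = _ := by ring

/-- the slope -/
theorem BF.bsl_dg (h : BF s Z c σ p r) (e : ℝ) (he : 0 < e)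
    {u : ℝ} (hu : σ + e * u ≤ 1) : TR.dg (trc Z e he (ct (bsl s p))) u ≤ chgL Z e he (s.xi 1) := by
  obtain ⟨K, hK, h1⟩ := h.lip
  show _ ≤ chgL Z e he (s.a.dg 1 ⊔ s.x.dg 1)
  apply trc_dg_le2 Z e he _ u _ _ _ _ (fun k ω => (∀ v : Fin (m + 1) → ℝ, ∀ δ : ℝ, (∀ i, |v i| ≤ δ) →
    S.dl σ k * |lin (p k ω) v| ≤ K k * δ) ∧ TR.ev (ct (bsl s p)) k ω = bsl s p k ω)
    (h1.and (ct_typ h.sl)) K hK
  filter_upwards [h.mp, hK.1] with k m2 hK0 ω ω' a b d d' z q i j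
  have e2 := m2 ω ω' a b z q
  show |TR.ev (ct (bsl s p)) k ω - TR.ev (ct (bsl s p)) k ω'| ≤ _
  rw [d.2, d'.2]
  unfold bsl
  rw [← e2, lin_sub]
  have h3 := d.1 (fun i => (Fin.cons 1 (s.x.v k ω) : Fin (m + 1) → ℝ) i - (Fin.cons 1 (s.x.v k ω') : Fin (m + 1) → ℝ) i)
    (S.dl 1 k) (fun i' => by
      induction i' using Fin.cases with
      | zero =>
        rw [Fin.cons_zero, Fin.cons_zero, sub_self, abs_zero]
        exact (S.dl_pos 1 k).le
      | succ i' =>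
        rw [Fin.cons_succ, Fin.cons_succ]
        exact j i')
  have h4 : |lin (p k ω) fun i => (Fin.cons 1 (s.x.v k ω) : Fin (m + 1) → ℝ) i -
      (Fin.cons 1 (s.x.v k ω') : Fin (m + 1) → ℝ) i| ≤ K k * S.dl 1 k / S.dl σ k := by
    rw [le_div_iff₀ (S.dl_pos σ k), mul_comm]
    exact h3
  refine h4.trans ?_
  rw [div_le_iff₀ (S.dl_pos σ k)]
  have h5 : S.dl 1 k ≤ S.dl (e * u) k * S.dl σ k := by
    rw [← dl_add]
    exact S.dl_anti (by linarith) k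
  calc K k * S.dl 1 k ≤ K k * (S.dl (e * u) k * S.dl σ k) := mul_le_mul_of_nonneg_left h5 hK0
    _ = _ := by ring

/-- the coordinate of the point -/
theorem BF.byc_dg (h : BF s Z c σ p r) (e : ℝ) (he : 0 < e)
    {u : ℝ} (hu : c + σ + e * u ≤ 1) : TR.dg (trc Z e he (ct (byc s c p r))) u ≤ chgL Z e he (s.P.dg 1 ⊔ s.T) := by
  obtain ⟨K, hK, h1⟩ := h.lip
  show _ ≤ chgL Z e he (s.P.dg 1 ⊔ s.t.dg 1)
  apply trc_dg_le2 Z e he _ u _ _ _ _ (fun k ω => (∀ v : Fin (m + 1) → ℝ, ∀ δ : ℝ, (∀ i, |v i| ≤ δ) →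
    S.dl σ k * |lin (p k ω) v| ≤ K k * δ) ∧ TR.ev (ct (byc s c p r)) k ω = byc s c p r k ω)
    (h1.and (ct_typ h.ce)) K hK
  filter_upwards [h.mp, h.mr, hK.1] with k m2 m3 hK0 ω ω' a b d d' z q i j
  have e2 := m2 ω ω' a b z q
  have e3 := m3 ω ω' a b z q
  show |TR.ev (ct (byc s c p r)) k ω - TR.ev (ct (byc s c p r)) k ω'| ≤ _
  rw [d.2, d'.2]
  unfold byc
  rw [← e2, ← e3, ← sub_div, sub_sub_sub_cancel_right, aff_sub, abs_div, abs_of_pos (S.dl_pos c k),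
    div_le_iff₀ (S.dl_pos c k)]
  have h3 := d.1 (fun i => ptf s k ω i - ptf s k ω' i)
    (S.dl 1 k) (fun i' => by
      induction i' using Fin.cases with
      | zero => exact j 0
      | succ i' => exact i i')
  have h4 : |lin (p k ω) fun i => ptf s k ω i - ptf s k ω' i| ≤ K k * S.dl 1 k / S.dl σ k := by
    rw [le_div_iff₀ (S.dl_pos σ k), mul_comm]
    exact h3
  refine h4.trans ?_
  rw [div_le_iff₀ (S.dl_pos σ k)]
  have h5 : S.dl 1 k ≤ S.dl (e * u) k * S.dl c k * S.dl σ k := by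
    rw [← dl_add, ← dl_add]
    exact S.dl_anti (by linarith) k
  calc K k * S.dl 1 k ≤ K k * (S.dl (e * u) k * S.dl c k * S.dl σ k) := mul_le_mul_of_nonneg_left h5 hK0
    _ = _ := by ring

/-- the intercept is tame -/
theorem BF.bin_tame (h : BF s Z c σ p r) (hτ : Cen s Z c τ) : Tame (bin s c τ p r) := by
  have h1 := h.ce.sub (hτ.tame.mul h.sl)
  refine h1.congr (Typ_true.mono (Eventually.of_forall fun k ω _ _ => ?_))
  show byc s c p r k ω - tco s c τ k ω * bsl s p k ω = _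
  rw [byc_eq s c τ p r]
  unfold tco
  ring

/-- the relation of the base coordinates -/
theorem BF.rel (h : BF s Z c σ p r) (hτ : Cen s Z c τ) :
    QS.mk (ct (byc s c p r)) = QS.mk (ct (bin s c τ p r)) + QS.mk (ct (tco s c τ)) * QS.mk (ct (bsl s p)) := by
  rw [← ct_mul hτ.tame h.sl, ← ct_add (h.bin_tame hτ) (hτ.tame.mul h.sl)]
  congr 2
  funext k ω
  exact byc_eq s c τ p r k ω

end

end Pool.Agent.Helper60.CA
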