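import Pool.Agent.Helper60.CA.Bf

/-! Digits of the coordinates of a corner. -/

set_option autoImplicit false

namespace Pool.Agent.Helper60.CA

open Finset Filter Topology MvPolynomial Pool.Agent.Helper3.LF Pool.Agent.Helper69.RK Pool.Agent.Helper31.EC
  Pool.Agent.Helper31.EC.Sp Matrix Pool.Agent.Helper89.LX Pool.Agent.Helper60.CS

noncomputable section

variable {S : Sp} {m : ℕ}

/-! ### the ring of tame functions -/

section ring

variable {f g : ∀ k, (S.F k).Ω → ℝ}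

theorem Tame.add (hf : Tame f) (hg : Tame g) : Tame fun k ω => f k ω + g k ω := by
  obtain ⟨K, hK, h1⟩ := hf
  obtain ⟨L, hL, h2⟩ := hg
  refine ⟨fun k => K k + L k, hK.add hL, (h1.and h2).mono (Eventually.of_forall fun k ω _ h => ?_)⟩
  exact (abs_add_le _ _).trans (add_le_add h.1 h.2)

theorem Tame.neg (hf : Tame f) : Tame fun k ω => -f k ω := by
  obtain ⟨K, hK, h1⟩ := hf
  refine ⟨K, hK, h1.mono (Eventually.of_forall fun k ω _ h => ?_)⟩
  rw [abs_neg]
  exact h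

theorem Tame.sub (hf : Tame f) (hg : Tame g) : Tame fun k ω => f k ω - g k ω := by
  obtain ⟨K, hK, h1⟩ := hf.add hg.neg
  refine ⟨K, hK, h1.mono (Eventually.of_forall fun k ω _ h => ?_)⟩
  show |f k ω - g k ω| ≤ K k
  rw [sub_eq_add_neg]
  exact h

theorem Tame.mul (hf : Tame f) (hg : Tame g) : Tame fun k ω => f k ω * g k ω := by
  obtain ⟨K, hK, h1⟩ := hf
  obtain ⟨L, hL, h2⟩ := hg
  refine ⟨fun k => K k * L k, hK.mul hL, (h1.and h2).mono (Eventually.of_forall fun k ω _ h => ?_)⟩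
  rw [abs_mul]
  exact mul_le_mul h.1 h.2 (abs_nonneg _) ((abs_nonneg _).trans h.1)

theorem Tame.cst {r : ℝ} (hr : 0 ≤ r) : Tame (S := S) fun k _ => S.dl r k := by
  refine ⟨fun _ => 1, S.Sub_const zero_le_one, Typ_true.mono (Eventually.of_forall fun k ω _ _ => ?_)⟩
  rw [abs_of_pos (S.dl_pos r k)]
  have h1 := S.dl_anti hr k
  rw [S.dl_zero] at h1
  exact h1

/-- transport of tameness along typical equality -/
theorem Tame.congr (hf : Tame f) (h : Typ (S := S) fun k ω => f k ω = g k ω) : Tame g := by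
  obtain ⟨K, hK, h1⟩ := hf
  refine ⟨K, hK, (h1.and h).mono (Eventually.of_forall fun k ω _ h => ?_)⟩
  rw [← h.2]
  exact h.1

theorem ct_congr (h : Typ (S := S) fun k ω => f k ω = g k ω) (hg : Tame g) : QS.mk (ct f) = QS.mk (ct g) := by
  apply ct_eq
  exact ((ct_typ hg).and h).mono (Eventually.of_forall fun k ω _ h => h.1.trans h.2.symm)

theorem ct_add (hf : Tame f) (hg : Tame g) :
    QS.mk (ct fun k ω => f k ω + g k ω) = QS.mk (ct f) + QS.mk (ct g) := by
  rw [← map_add]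
  apply ct_eq
  refine ((ct_typ hf).and (ct_typ hg)).mono (Eventually.of_forall fun k ω _ h => ?_)
  rw [TR.ev_add, h.1, h.2]

theorem ct_sub (hf : Tame f) (hg : Tame g) :
    QS.mk (ct fun k ω => f k ω - g k ω) = QS.mk (ct f) - QS.mk (ct g) := by
  rw [← map_sub]
  apply ct_eq
  refine ((ct_typ hf).and (ct_typ hg)).mono (Eventually.of_forall fun k ω _ h => ?_)
  rw [TR.ev_sub, h.1, h.2]

theorem ct_mul (hf : Tame f) (hg : Tame g) :
    QS.mk (ct fun k ω => f k ω * g k ω) = QS.mk (ct f) * QS.mk (ct g) := by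
  rw [← map_mul]
  apply ct_eq
  refine ((ct_typ hf).and (ct_typ hg)).mono (Eventually.of_forall fun k ω _ h => ?_)
  rw [TR.ev_mul, h.1, h.2]

variable (Z : ∀ k, Setoid (S.F k).Ω) (e : ℝ) (he : 0 < e)

/-- the tame function in the changed space -/
theorem ct_trc (hf : Tame f) : QS.mk (ct (S := S.chg Z e he) f) = QS.mk (trc Z e he (ct f)) :=
  ct_eq (typ_chg Z e he (ct_typ hf))

/-- functions of the base have no digits -/
theorem ct_bot {Z : ∀ k, Setoid (S.F k).Ω} (he : 0 < e) (hm : Mes Z f) (u : ℝ) :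
    TR.dg (trc Z e he (ct f)) u = ⊥ := by
  classical
  apply le_antisymm _ _root_.bot_le
  have h0 : (⊥ : (S.chg Z e he).L) = TR.dg (0 : TR (S.chg Z e he)) u := by
    rw [TR.const_dg 0 (Eventually.of_forall fun _ _ _ => rfl)]
  rw [h0]
  apply VV.dg_le_dg _ _ _ _ (fun _ _ => True) Typ_true (fun _ => 1) ((S.chg Z e he).Sub_const zero_le_one)
  filter_upwards [hm] with k hk ω ω' a b _ _ q _ i
  have q' : (Z k ⊓ (S.F k).Z) ω ω' := q
  have h1 : f k ω = f k ω' := hk ω ω' a b q'.1 q'.2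
  have h2 : (ct f).1 k ω = (ct f).1 k ω' := by
    unfold ct
    split_ifs with hT
    · show (if |f k ω| ≤ hT.choose k then f k ω else 0) = (if |f k ω'| ≤ hT.choose k then f k ω' else 0)
      rw [h1]
    · rfl
  show |(ct f).1 k ω - (ct f).1 k ω'| ≤ _
  rw [h2, sub_self, abs_zero, one_mul]
  exact ((S.chg Z e he).dl_pos u k).le

theorem mem_Kn_ct {Z : ∀ k, Setoid (S.F k).Ω} (he : 0 < e) (hm : Mes Z f) {u : ℝ} (hu : u ≤ 1)
    (A : (S.chg Z e he).L) : QS.mk (trc Z e he (ct f)) ∈ QS.Kn (S.chg Z e he) u hu A := by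
  rw [QS.mem_Kn, QS.dg_mk _ hu, ct_bot e he hm]
  exact _root_.bot_le

end ring

/-! ### the time -/

/-- the time in the window -/
def tco (s : Sys S m) (c : ℝ) (τ : ∀ k, (S.F k).Ω → ℝ) (k : ℕ) (ω : (S.F k).Ω) : ℝ :=
  (s.t.v k ω 0 - τ k ω) / S.dl c k

section time

variable {s : Sys S m} {Z : ∀ k, Setoid (S.F k).Ω} {c : ℝ} {τ : ∀ k, (S.F k).Ω → ℝ}

theorem Cen.tame (hτ : Cen s Z c τ) : Tame (tco s c τ) := hτ.t_tame

/-- the centre is tame -/
theorem Cen.ctame (hτ : Cen s Z c τ) (hc : 0 ≤ c) : Tame τ := by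
  have h1 : Tame fun k ω => s.t.v k ω 0 := Tame.tr (TR.cor s.t 0)
  have h2 := h1.sub ((Tame.cst (S := S) hc).mul hτ.tame)
  refine h2.congr (Typ_true.mono (Eventually.of_forall fun k ω _ _ => ?_))
  unfold tco
  rw [mul_div_cancel₀ _ (S.dl_pos c k).ne']
  ring

/-- digits of the time in the window -/
theorem Cen.dg (hτ : Cen s Z c τ) (e : ℝ) (he : 0 < e) (u : ℝ) :
    chgL Z e he (TR.dg (ct (tco s c τ)) (e * u)) = chgL Z e he (s.t.dg (c + e * u)) := by
  obtain ⟨K, hK, h1⟩ := hτ.bd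
  have h2 := zo_dg Z e he (f := TR.cor s.t 0) (g := τ) (r := c) hK h1 (by
    filter_upwards [hτ.meas] with k hk ω ω' a b q
    exact hk ω ω' a b q.1 q.2) u
  have h3 : TR.dg (TR.cor s.t 0) (c + e * u) = s.t.dg (c + e * u) := by
    unfold TR.dg
    congr 1
    show TR.vec (fun _ : Fin 1 => TR.cor s.t 0) = s.t
    have h4 : (fun _ : Fin 1 => TR.cor s.t 0) = TR.cor s.t := by
      funext i
      rw [Subsingleton.elim i 0]
    rw [h4, TR.vec_cor]
  rw [h3] at h2
  rw [← h2, ← trc_dg]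
  apply TR.Te.dg_eq
  refine ⟨_, typ_chg Z e he ((ct_typ hτ.tame).and h1), Eventually.of_forall fun k ω _ h => ?_⟩
  exact h.1.trans (zo_ev Z e he (f := TR.cor s.t 0) (g := τ) (hK := hK) h.2).symm

end time

end

end Pool.Agent.Helper60.CA
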