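import Pool.Agent.Helper3.LF.PhiRem

/-! Polynomials along lines: coefficients, bounds, comparison of neighbouring lines. -/

set_option autoImplicit false

namespace Pool.Agent.Helper60.CA

open Finset MvPolynomial Pool.Agent.Helper3.LF Matrix

noncomputable section

/-- the nodes -/
def nd (D : ℕ) (i : Fin (D + 1)) : ℝ := (i : ℝ) / ((D : ℝ) + 1)

theorem nd_inj (D : ℕ) : Function.Injective (nd D) := by
  intro i j h
  unfold nd at h
  have h1 : (0 : ℝ) < (D : ℝ) + 1 := by positivity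
  rw [div_left_inj' h1.ne'] at h
  exact Fin.ext (by exact_mod_cast h)

theorem nd_abs (D : ℕ) (i : Fin (D + 1)) : |nd D i| ≤ 1 := by
  unfold nd
  have h1 : (0 : ℝ) < (D : ℝ) + 1 := by positivity
  have h2 : ((i : ℕ) : ℝ) ≤ D := by exact_mod_cast Nat.lt_succ_iff.mp i.2
  rw [abs_of_nonneg (by positivity), div_le_one h1]
  linarith

/-- the constant of the interpolation bound -/
def Cl (D : ℕ) : ℝ := ∑ i, ∑ j, |(Matrix.vandermonde (nd D))⁻¹ i j|

theorem Cl_nonneg (D : ℕ) : 0 ≤ Cl D := sum_nonneg fun _ _ => sum_nonneg fun _ _ => abs_nonneg _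

theorem coeff_bd {D : ℕ} (P : Polynomial ℝ) (hP : P.natDegree ≤ D) {M : ℝ} (hM : 0 ≤ M)
    (h : ∀ u : ℝ, |u| ≤ 1 → |P.eval u| ≤ M) (j : ℕ) : |P.coeff j| ≤ Cl D * M := by
  classical
  by_cases hj : j < D + 1
  swap
  · rw [Polynomial.coeff_eq_zero_of_natDegree_lt (by omega), abs_zero]
    exact mul_nonneg (Cl_nonneg D) hM
  have h1 : (Matrix.vandermonde (nd D)) *ᵥ (fun j : Fin (D + 1) => P.coeff j) = fun i => P.eval (nd D i) := by
    funext i
    show ∑ j : Fin (D + 1), nd D i ^ (j : ℕ) * P.coeff j = _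
    rw [Polynomial.eval_eq_sum_range' (Nat.lt_succ_of_le hP), Finset.sum_range]
    exact Finset.sum_congr rfl fun j _ => mul_comm _ _
  have h2 : IsUnit (Matrix.vandermonde (nd D)).det := by
    rw [isUnit_iff_ne_zero]
    exact Matrix.det_vandermonde_ne_zero_iff.mpr (nd_inj D)
  have h3 : (fun j : Fin (D + 1) => P.coeff j) = (Matrix.vandermonde (nd D))⁻¹ *ᵥ fun i => P.eval (nd D i) := by
    rw [← h1, Matrix.mulVec_mulVec, Matrix.nonsing_inv_mul _ h2, Matrix.one_mulVec]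
  have h4 : P.coeff j = ∑ i, (Matrix.vandermonde (nd D))⁻¹ ⟨j, hj⟩ i * P.eval (nd D i) := congrFun h3 ⟨j, hj⟩
  rw [h4]
  refine (abs_sum_le_sum_abs _ _).trans ?_
  have h5 : ∑ i, |(Matrix.vandermonde (nd D))⁻¹ ⟨j, hj⟩ i * P.eval (nd D i)| ≤
      ∑ i, |(Matrix.vandermonde (nd D))⁻¹ ⟨j, hj⟩ i| * M := by
    apply sum_le_sum
    intro i _
    rw [abs_mul]
    exact mul_le_mul_of_nonneg_left (h _ (nd_abs D i)) (abs_nonneg _)
  refine h5.trans ?_
  rw [← sum_mul]
  apply mul_le_mul_of_nonneg_right _ hM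
  exact single_le_sum (f := fun i => ∑ j, |(Matrix.vandermonde (nd D))⁻¹ i j|)
    (fun _ _ => sum_nonneg fun _ _ => abs_nonneg _) (mem_univ (⟨j, hj⟩ : Fin (D + 1)))

variable {N D : ℕ}

/-- the polynomial along the line `u ↦ α + u β` -/
def lp (c : Mon N D → ℝ) (α β : Fin N → ℝ) : Polynomial ℝ :=
  MvPolynomial.aeval (fun i => Polynomial.C (α i) + Polynomial.C (β i) * Polynomial.X) (pol c)

/-- the coefficients along the line -/
def lc (c : Mon N D → ℝ) (α β : Fin N → ℝ) (j : ℕ) : ℝ := (lp c α β).coeff j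

theorem lp_deg (c : Mon N D → ℝ) (α β : Fin N → ℝ) : (lp c α β).natDegree ≤ D := by
  have h1 := MvPolynomial.aeval_natDegree_le (pol c) (pol_deg c)
    (fun i => Polynomial.C (α i) + Polynomial.C (β i) * Polynomial.X) (n := 1) (fun i => by
      refine (Polynomial.natDegree_add_le _ _).trans (max_le ?_ ?_)
      · rw [Polynomial.natDegree_C]; exact Nat.zero_le _
      · exact (Polynomial.natDegree_C_mul_le _ _).trans (Polynomial.natDegree_X_le))
  rw [mul_one] at h1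
  exact h1

theorem lp_eval (c : Mon N D → ℝ) (α β : Fin N → ℝ) (u : ℝ) :
    (lp c α β).eval u = eval (fun i => α i + β i * u) (pol c) := by
  unfold lp
  rw [← Polynomial.coe_evalRingHom, ← MvPolynomial.coe_aeval_eq_eval]
  have h1 := MvPolynomial.map_aeval (fun i => Polynomial.C (α i) + Polynomial.C (β i) * Polynomial.X)
    (Polynomial.evalRingHom u) (pol c)
  rw [h1]
  show _ = aeval (fun i => α i + β i * u) (pol c)
  have e1 : (fun i => (Polynomial.evalRingHom u) (Polynomial.C (α i) + Polynomial.C (β i) * Polynomial.X)) =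
      fun i => α i + β i * u := by
    funext i
    simp
  have e2 : (Polynomial.evalRingHom u).comp (algebraMap ℝ (Polynomial ℝ)) = algebraMap ℝ ℝ := by
    ext a
    simp
  rw [e1, e2]
  rfl

theorem lc_eval (c : Mon N D → ℝ) (α β : Fin N → ℝ) (u : ℝ) :
    eval (fun i => α i + β i * u) (pol c) = ∑ j : Fin (D + 1), lc c α β j * u ^ (j : ℕ) := by
  rw [← lp_eval, Polynomial.eval_eq_sum_range' (Nat.lt_succ_of_le (lp_deg c α β)), Finset.sum_range]
  rfl

theorem lc_bd (c : Mon N D → ℝ) (α β : Fin N → ℝ) {M : ℝ} (hM : 0 ≤ M)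
    (h : ∀ u : ℝ, |u| ≤ 1 → |eval (fun i => α i + β i * u) (pol c)| ≤ M) (j : ℕ) : |lc c α β j| ≤ Cl D * M := by
  apply coeff_bd _ (lp_deg c α β) hM
  intro u hu
  rw [lp_eval]
  exact h u hu

/-- a polynomial which is bounded on a ball is Lipschitz at the centre -/
theorem lip_ball (c : Mon N D → ℝ) (p y : Fin N → ℝ) {M r : ℝ} (hM : 0 ≤ M) (hr : 0 < r)
    (h : ∀ y' : Fin N → ℝ, (∀ i, |y' i - p i| ≤ r) → |eval y' (pol c)| ≤ M) {δ : ℝ} (hδ : 0 < δ) (hδ1 : δ ≤ 1)
    (hy : ∀ i, |y i - p i| ≤ δ * r) : |eval y (pol c) - eval p (pol c)| ≤ (D * (Cl D * M)) * δ := by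
  have h1 : ∀ u : ℝ, |u| ≤ 1 → |eval (fun i => p i + (y i - p i) / δ * u) (pol c)| ≤ M := by
    intro u hu
    apply h
    intro i
    rw [add_sub_cancel_left, abs_mul, abs_div, abs_of_pos hδ]
    have h2 : |y i - p i| / δ ≤ r := by
      rw [div_le_iff₀ hδ, mul_comm]
      exact hy i
    calc |y i - p i| / δ * |u| ≤ r * 1 := mul_le_mul h2 hu (abs_nonneg _) hr.le
      _ = r := mul_one r
  have h2 := lc_bd c p (fun i => (y i - p i) / δ) hM h1
  have h3 := lc_eval c p (fun i => (y i - p i) / δ) δ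
  have h4 := lc_eval c p (fun i => (y i - p i) / δ) 0
  have e1 : (fun i => p i + (y i - p i) / δ * δ) = y := by
    funext i
    rw [div_mul_cancel₀ _ hδ.ne']
    ring
  have e2 : (fun i => p i + (y i - p i) / δ * 0) = p := by
    funext i
    ring
  rw [e1] at h3
  rw [e2] at h4
  rw [h3, h4, Fin.sum_univ_succ, Fin.sum_univ_succ]
  have e3 : ∑ j : Fin D, lc c p (fun i => (y i - p i) / δ) (j.succ : Fin (D + 1)) * (0 : ℝ) ^ ((j.succ : Fin (D + 1)) : ℕ) = 0 := by
    apply sum_eq_zero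
    intro j _
    rw [Fin.val_succ, zero_pow (Nat.succ_ne_zero _), mul_zero]
  rw [e3, Fin.val_zero, pow_zero, pow_zero, add_zero, add_sub_cancel_left]
  refine (abs_sum_le_sum_abs _ _).trans ?_
  have h5 : ∀ j ∈ (univ : Finset (Fin D)), |lc c p (fun i => (y i - p i) / δ) (j.succ : Fin (D + 1)) *
      δ ^ ((j.succ : Fin (D + 1)) : ℕ)| ≤ (Cl D * M) * δ := by
    intro j _
    rw [abs_mul]
    apply mul_le_mul (h2 _) _ (abs_nonneg _) (mul_nonneg (Cl_nonneg D) hM)
    rw [abs_of_pos (pow_pos hδ _), Fin.val_succ, pow_succ]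
    calc δ ^ (j : ℕ) * δ ≤ 1 * δ := mul_le_mul_of_nonneg_right (pow_le_one₀ hδ.le hδ1) hδ.le
      _ = δ := one_mul δ
  refine (sum_le_sum h5).trans ?_
  rw [sum_const, card_univ, Fintype.card_fin, nsmul_eq_mul]
  apply le_of_eq
  ring

/-- coefficients along neighbouring lines -/
theorem lc_near (c : Mon N D → ℝ) (α β α' β' : Fin N → ℝ) {M r : ℝ} (hM : 0 ≤ M) (hr : 0 < r)
    (h : ∀ u : ℝ, |u| ≤ 1 → ∀ y : Fin N → ℝ, (∀ i, |y i - (α i + β i * u)| ≤ r) → |eval y (pol c)| ≤ M)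
    {δ : ℝ} (hδ : 0 < δ) (hδ1 : δ ≤ 1) (hh : ∀ i, |α' i - α i| + |β' i - β i| ≤ δ * r) (j : ℕ) :
    |lc c α' β' j - lc c α β j| ≤ Cl D * ((D * (Cl D * M)) * δ) := by
  have h0 : 0 ≤ (D * (Cl D * M)) * δ :=
    mul_nonneg (mul_nonneg (Nat.cast_nonneg _) (mul_nonneg (Cl_nonneg D) hM)) hδ.le
  have h1 : lc c α' β' j - lc c α β j = (lp c α' β' - lp c α β).coeff j := by
    rw [Polynomial.coeff_sub]
    rfl
  rw [h1]
  apply coeff_bd _ _ h0
  · intro u hu
    rw [Polynomial.eval_sub, lp_eval, lp_eval]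
    apply lip_ball c _ _ hM hr (h u hu) hδ hδ1
    intro i
    have h2 : α' i + β' i * u - (α i + β i * u) = (α' i - α i) + (β' i - β i) * u := by ring
    rw [h2]
    refine (abs_add_le _ _).trans (le_trans ?_ (hh i))
    rw [abs_mul]
    have := mul_le_mul_of_nonneg_left hu (abs_nonneg (β' i - β i))
    rw [mul_one] at this
    linarith
  · exact (Polynomial.natDegree_sub_le _ _).trans (max_le (lp_deg c _ _) (lp_deg c _ _))

end

end Pool.Agent.Helper60.CA
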