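import Pool.Agent.Helper60.CA.Dgq
import Pool.Agent.Helper47.T4.Nest

/-! The data of a corner over nested labels. -/

set_option autoImplicit false

namespace Pool.Agent.Helper60.CA

open Finset Filter Topology MvPolynomial Pool.Agent.Helper3.LF Pool.Agent.Helper69.RK Pool.Agent.Helper31.EC
  Pool.Agent.Helper31.EC.Sp Matrix Pool.Agent.Helper89.LX Pool.Agent.Helper60.CS Pool.Agent.Helper47.T4

noncomputable section

variable {S : Sp} {m : ℕ}

theorem Mes.fin2 {α : ℕ → Type} {Z Z' : ∀ k, Setoid (S.F k).Ω} {f : ∀ k, (S.F k).Ω → α k} (h : Mes Z f)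
    (hZ : Fin2 Z Z') : Mes Z' f := by
  filter_upwards [h] with k hk ω ω' a b c d
  exact hk ω ω' a b (hZ k ω ω' a b d c) d

theorem Cen.fin2 {s : Sys S m} {Z Z' : ∀ k, Setoid (S.F k).Ω} {c : ℝ} {τ : ∀ k, (S.F k).Ω → ℝ} (h : Cen s Z c τ)
    (hZ : Fin2 Z Z') : Cen s Z' c τ := ⟨h.meas.fin2 hZ, h.bd⟩

theorem PF.fin2 {s : Sys S m} {Z Z' : ∀ k, Setoid (S.F k).Ω} {D : ℕ} {c η : ℝ}
    {q : ∀ k, (S.F k).Ω → Mon (m + 1) D → ℝ} (h : PF s Z D c η q) (hZ : Fin2 Z Z') : PF s Z' D c η q :=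
  ⟨h.meas.fin2 hZ, h.bd⟩

theorem ct_mes {f : ∀ k, (S.F k).Ω → ℝ} {k : ℕ} {ω ω' : (S.F k).Ω} (h : f k ω = f k ω') :
    (ct f).1 k ω = (ct f).1 k ω' := by
  classical
  unfold ct
  split_ifs with hT
  · show (if |f k ω| ≤ hT.choose k then f k ω else 0) = (if |f k ω'| ≤ hT.choose k then f k ω' else 0)
    rw [h]
  · rfl

/-- the centre of the finer window in the coordinates of the window -/
def tc0 (S : Sp) (c : ℝ) (τ τ' : ∀ k, (S.F k).Ω → ℝ) (k : ℕ) (ω : (S.F k).Ω) : ℝ := (τ' k ω - τ k ω) / S.dl c k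

section

variable {s : Sys S m} {Z Z' : ∀ k, Setoid (S.F k).Ω} {c c' : ℝ} {τ τ' : ∀ k, (S.F k).Ω → ℝ}

/-- the time in the window from the time in the finer window -/
theorem tco_chg (s : Sys S m) (c c' : ℝ) (τ τ' : ∀ k, (S.F k).Ω → ℝ) (k : ℕ) (ω : (S.F k).Ω) :
    tco s c τ k ω = tc0 S c τ τ' k ω + S.dl (c' - c) k * tco s c' τ' k ω := by
  unfold tco tc0
  have h1 := (S.dl_pos c k).ne'
  have h2 := (S.dl_pos c' k).ne'
  have h3 : S.dl (c' - c) k = S.dl c' k / S.dl c k := by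
    rw [eq_div_iff h1, ← dl_add]
    congr 1
    ring
  rw [h3]
  field_simp
  ring

theorem tc0_tame (h : Cen s Z c τ) (h' : Cen s Z' c' τ') (hc : c ≤ c') : Tame (tc0 S c τ τ') := by
  have h1 := h.tame.sub ((Tame.cst (S := S) (sub_nonneg.mpr hc)).mul h'.tame)
  refine h1.congr (Typ_true.mono (Eventually.of_forall fun k ω _ _ => ?_))
  show tco s c τ k ω - S.dl (c' - c) k * tco s c' τ' k ω = _
  rw [tco_chg s c c' τ τ']
  ring

theorem tc0_mes (h : Cen s Z c τ) (h' : Cen s Z' c' τ') (hZ : Fin2 Z Z') : Mes Z' (tc0 S c τ τ') := by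
  filter_upwards [h.meas.fin2 hZ, h'.meas] with k h1 h2 ω ω' a b z q
  unfold tc0
  rw [h1 ω ω' a b z q, h2 ω ω' a b z q]

end

/-- numbers of a corner over nested labels -/
structure NN where
  e : ℝ
  he : 0 < e
  s : ℝ
  σ : ℝ
  v : ℝ
  hs : 0 ≤ s
  hσ : 0 ≤ σ
  hv : 0 ≤ v
  hvs : v ≤ s
  h1 : σ + v ≤ 1

/-- THE DATA OF A CORNER OVER NESTED LABELS `Z` (window `c`), `Z'` (window `c + e s`): the time and the top coordinate
`ζ = q(P)` of the window `c`, `q` a polynomial which is a function of `Z` -/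
def ndA {d D : ℕ} {s : Sys S m} {Z Z' : ∀ k, Setoid (S.F k).Ω} (hZ : Fin2 Z Z') (N : NN) {c η : ℝ}
    {τ τ' : ∀ k, (S.F k).Ω → ℝ} (hτ : Cen s Z c τ) (hτ' : Cen s Z' (c + N.e * N.s) τ')
    {q : ∀ k, (S.F k).Ω → Mon (m + 1) D → ℝ} (hq : PF s Z D c η q)
    (a x : Fin d → TR (S.chg Z' N.e N.he)) : ND S d D where
  Z := Z
  Z' := Z'
  hZ := hZ
  e := N.e
  he := N.he
  s := N.s
  σ := N.σ
  v := N.v
  hs := N.hs
  hσ := N.hσ
  hv := N.hv
  hvs := N.hvs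
  h1 := N.h1
  τ := ct (tco s c τ)
  τ0 := ct (tc0 S c τ τ')
  hτ0 := by
    filter_upwards [tc0_mes hτ hτ' hZ] with k hk ω ω' a b z
    exact ct_mes (hk ω ω' a b z.1 z.2)
  K := hτ'.bd.choose
  hK := hτ'.bd.choose_spec.1
  hτ := by
    have hc : c ≤ c + N.e * N.s := by have := mul_nonneg N.he.le N.hs; linarith
    refine (((ct_typ hτ.tame).and (ct_typ (tc0_tame hτ hτ' hc))).and hτ'.bd.choose_spec.2).mono
      (Eventually.of_forall fun k ω _ h => ?_)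
    obtain ⟨⟨h1, h2⟩, h3⟩ := h
    have e1 : (ct (tco s c τ)).1 k ω - (ct (tc0 S c τ τ')).1 k ω = (s.t.v k ω 0 - τ' k ω) / S.dl c k := by
      have h1' : (ct (tco s c τ)).1 k ω = tco s c τ k ω := h1
      have h2' : (ct (tc0 S c τ τ')).1 k ω = tc0 S c τ τ' k ω := h2
      rw [h1', h2']
      unfold tco tc0
      ring
    rw [e1, abs_div, abs_of_pos (S.dl_pos c k), div_le_iff₀ (S.dl_pos c k)]
    have e2 : S.dl (c + N.e * N.s) k = S.dl (N.e * N.s) k * S.dl c k := by rw [← dl_add, add_comm c]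
    rw [mul_assoc, ← e2]
    exact h3
  g := fun j => ct (gco s c τ q j)
  ζ := ct fun k ω => eval (ptf s k ω) (pol (q k ω))
  hζ := hq.rel hτ
  a := a
  x := x

section facts

variable {d D : ℕ} {s : Sys S m} {Z Z' : ∀ k, Setoid (S.F k).Ω} (hZ : Fin2 Z Z') (N : NN) {c η : ℝ}
  {τ τ' : ∀ k, (S.F k).Ω → ℝ} (hτ : Cen s Z c τ) (hτ' : Cen s Z' (c + N.e * N.s) τ')
  {q : ∀ k, (S.F k).Ω → Mon (m + 1) D → ℝ} (hq : PF s Z D c η q) (a x : Fin d → TR (S.chg Z' N.e N.he))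

/-- the digits of the time over the first label -/
theorem ndA_τ (e : ℝ) (he : 0 < e) (u : ℝ) :
    chgL Z e he (TR.dg (ndA hZ N hτ hτ' hq a x).τ (e * u)) = chgL Z e he (s.t.dg (c + e * u)) := hτ.dg e he u

/-- the digits of the time over the second label -/
theorem ndA_τ' (e : ℝ) (he : 0 < e) (u : ℝ) :
    chgL Z' e he (TR.dg (ndA hZ N hτ hτ' hq a x).τ (e * u)) = chgL Z' e he (s.t.dg (c + e * u)) :=
  (hτ.fin2 hZ).dg e he u

/-- the coefficients are functions of the line, first label -/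
theorem ndA_g (hc : 0 ≤ c) (hη : η < 1) (e : ℝ) (he : 0 < e) {u : ℝ} (hu : η + e * u ≤ 1) :
    chgL Z e he (gd (ndA hZ N hτ hτ' hq a x).g (e * u)) ≤ chgL Z e he (s.xi 1) := by
  rw [← gd_trc, gd_le]
  intro j
  exact hq.gco_dg hτ hc hη j e he hu

/-- the coefficients are functions of the line, second label -/
theorem ndA_g' (hc : 0 ≤ c) (hη : η < 1) (e : ℝ) (he : 0 < e) {u : ℝ} (hu : η + e * u ≤ 1) :
    chgL Z' e he (gd (ndA hZ N hτ hτ' hq a x).g (e * u)) ≤ chgL Z' e he (s.xi 1) := by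
  rw [← gd_trc, gd_le]
  intro j
  exact (hq.fin2 hZ).gco_dg (hτ.fin2 hZ) hc hη j e he hu

/-- the top coordinate is a function of the point, first label -/
theorem ndA_ζ (hη : η < 1) (e : ℝ) (he : 0 < e) {u : ℝ} (hu : η + e * u ≤ 1) :
    chgL Z e he (TR.dg (ndA hZ N hτ hτ' hq a x).ζ (e * u)) ≤ chgL Z e he (s.P.dg 1 ⊔ s.T) := by
  rw [← trc_dg]
  exact hq.pt_dg hη e he hu

/-- the top coordinate is a function of the point, second label -/
theorem ndA_ζ' (hη : η < 1) (e : ℝ) (he : 0 < e) {u : ℝ} (hu : η + e * u ≤ 1) :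
    chgL Z' e he (TR.dg (ndA hZ N hτ hτ' hq a x).ζ (e * u)) ≤ chgL Z' e he (s.P.dg 1 ⊔ s.T) := by
  rw [← trc_dg]
  exact (hq.fin2 hZ).pt_dg hη e he hu

end facts

end

end Pool.Agent.Helper60.CA
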