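import Pool.Agent.Helper60.CA.Lc
import Pool.Agent.Helper60.CS.Zo

/-! Polynomials which are functions of the base: their coefficients along the line as tame functions in the space over
the base, digits. -/

set_option autoImplicit false

namespace Pool.Agent.Helper60.CA

open Finset Filter Topology MvPolynomial Pool.Agent.Helper3.LF Pool.Agent.Helper69.RK Pool.Agent.Helper31.EC
  Pool.Agent.Helper31.EC.Sp Matrix

noncomputable section

/-! ### tame real functions -/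

section tame

variable {S : Sp}

/-- tame real functions -/
def Tame (f : ∀ k, (S.F k).Ω → ℝ) : Prop := ∃ K : ℕ → ℝ, S.Sub K ∧ Typ (S := S) (fun k ω => |f k ω| ≤ K k)

open Classical in
/-- the tame function -/
def ct (f : ∀ k, (S.F k).Ω → ℝ) : TR S :=
  if h : Tame f then ⟨fun k ω => if |f k ω| ≤ h.choose k then f k ω else 0, by
    refine ⟨h.choose, h.choose_spec.1, ?_⟩
    filter_upwards [h.choose_spec.1.1] with k hk ω _
    split_ifs with h1
    · exact h1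
    · rw [abs_zero]; exact hk⟩
  else 0

theorem ct_typ {f : ∀ k, (S.F k).Ω → ℝ} (h : Tame f) : Typ (S := S) (fun k ω => TR.ev (ct f) k ω = f k ω) := by
  classical
  refine h.choose_spec.2.mono (Eventually.of_forall fun k ω _ h1 => ?_)
  show (ct f).1 k ω = _
  unfold ct
  rw [dif_pos h]
  exact if_pos h1

/-- the tame function is determined by typical values -/
theorem ct_eq {f : ∀ k, (S.F k).Ω → ℝ} {g : TR S} (h : Typ (S := S) (fun k ω => TR.ev g k ω = f k ω)) :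
    QS.mk (ct f) = QS.mk g := by
  have h1 : Tame f := by
    obtain ⟨K, hK, h2⟩ := g.2
    refine ⟨K, hK, h.mono ?_⟩
    filter_upwards [h2] with k hk ω h3 h4
    rw [← h4]
    exact hk ω h3
  rw [QS.mk_eq]
  refine TR.Te.ag ⟨_, (ct_typ h1).and h, Eventually.of_forall fun k ω _ h2 => ?_⟩ 1
  exact h2.1.trans h2.2.symm

theorem Tame.of_le {f g : ∀ k, (S.F k).Ω → ℝ} (h : Tame g)
    (h2 : Typ (S := S) (fun k ω => |f k ω| ≤ |g k ω|)) : Tame f := by
  obtain ⟨K, hK, h1⟩ := h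
  exact ⟨K, hK, (h1.and h2).mono (Eventually.of_forall fun k ω _ h3 => h3.2.trans h3.1)⟩

theorem Tame.tr (f : TR S) : Tame fun k ω => TR.ev f k ω := by
  obtain ⟨K, hK, h⟩ := f.2
  refine ⟨K, hK, Typ_true.mono ?_⟩
  filter_upwards [h] with k hk ω h1 _
  exact hk ω h1

variable (Z : ∀ k, Setoid (S.F k).Ω) (e : ℝ) (he : 0 < e)

theorem Tame.chg {f : ∀ k, (S.F k).Ω → ℝ} (h : Tame f) : Tame (S := S.chg Z e he) f := by
  obtain ⟨K, hK, h1⟩ := h
  exact ⟨K, chg_sub Z e he hK, h1⟩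

/-- functions of the base -/
def Mes {α : ℕ → Type} (Z : ∀ k, Setoid (S.F k).Ω) (f : ∀ k, (S.F k).Ω → α k) : Prop :=
  ∀ᶠ k in UF, ∀ ω ω', (S.F k).μ ω ≠ 0 → (S.F k).μ ω' ≠ 0 → Z k ω ω' → (S.F k).Z ω ω' → f k ω = f k ω'

variable {Z}

theorem Mes.mono {α : ℕ → Type} {Z' : ∀ k, Setoid (S.F k).Ω} {f : ∀ k, (S.F k).Ω → α k} (h : Mes Z f)
    (hZ : ∀ k, Z' k ≤ Z k) : Mes Z' f := by
  filter_upwards [h] with k hk ω ω' a b c d
  exact hk ω ω' a b (hZ k c) d

/-- digits of a tame function in terms of digits of another -/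
theorem ct_dg_le {p : ℕ} {f : ∀ k, (S.F k).Ω → ℝ} (hf : Tame f) (w : S.VV p) (r t : ℝ)
    (E : ∀ k, (S.F k).Ω → Prop) (hE : Typ E) (K : ℕ → ℝ) (hK : S.Sub K)
    (h : ∀ᶠ k in UF, ∀ ω ω', (S.F k).μ ω ≠ 0 → (S.F k).μ ω' ≠ 0 → E k ω → E k ω' → (S.F k).Z ω ω' →
      (∀ i, |w.v k ω i - w.v k ω' i| ≤ S.dl t k) → |f k ω - f k ω'| ≤ K k * S.dl r k) :
    TR.dg (ct f) r ≤ w.dg t := by
  refine VV.dg_le_dg _ _ _ _ _ (hE.and (ct_typ hf)) K hK ?_
  filter_upwards [h] with k hk ω ω' a b c d q i _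
  have h1 := hk ω ω' a b c.1 d.1 q i
  show |TR.ev (ct f) k ω - TR.ev (ct f) k ω'| ≤ _
  rw [c.2, d.2]
  exact h1

end tame

end

end Pool.Agent.Helper60.CA
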